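import Pool.Agent.H84.LIV.CntL
import Pool.Agent.H64.STAT.Final

/-!
# Live times: the core, assembled

`core_of`: if the height is not full (pointwise count) and the walks of `L` legs are submersions
onto the base, then there is a visible polynomial. `sbm_of` is the next layer: if there is no visible
polynomial then the walks of `2 L + 1` legs are submersions onto the base and the height.
-/

set_option autoImplicit false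

namespace Pool.LIV

open Finset MvPolynomial
open Pool.Agent.H49.Ent Pool.Agent.H32.Dense Pool.STK Pool.KS3
open Pool.BFL (Pl CB Pb P2 MC alt)
open Pool.KAF (Pr)
open Pool.STAT
open Pool.STAT84

section

variable {c : ℕ} {Ω G B 𝔅 𝒱 : Type} [Fintype Ω] {d : Fin c → ℕ} {i₀ : Fin c}
    {j D U m : ℕ} {C₀ θ η : ℝ} {p : Ω → ℝ} {g : Ω → G} {bk : Ω → B} {β : Ω → 𝔅} {V : Ω → 𝒱}
    {tm : Ω → ℤ} {pT : Ω → Fin c → ℝ} {pN : Ω → ℝ} {ΘT : B → (Fin c → ℝ) → Fin c → ℝ}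
    {FN : B → (Fin c → ℝ) → ℝ} {ξT : 𝒱 → 𝔅 → Fin c → Pl c} {ξN : 𝒱 → 𝔅 → Pl c}

theorem LC.toWL84 (h : LC d i₀ j D U m C₀ θ η p g bk β V tm pT pN ΘT FN ξT ξN) :
    WL d j U m C₀ θ η p g bk β V tm ΘT FN ξT ξN :=
  ⟨h.isLaw, h.d_pos, h.j_pos, h.tm_g, h.ξT_vf, h.ξT_le, h.ξN_hom, h.ξN_le, h.ΘT_le, h.transport⟩

theorem Flt.mono84 {N : ℕ} {r r' : ℝ} (hr : r ≤ r')
    (h : Flt d j p g bk β V ξT ξN N r η) : Flt d j p g bk β V ξT ξN N r' η := by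
  obtain ⟨W, hW, q, z, hMC, hP⟩ := h
  exact ⟨W, hW, q, z, hMC, hP.trans (Pb_mono84 hMC.isLaw.nonneg
    (fun w _ hf e => CB.mono84 (hf e) hr))⟩

/-- There is a visible polynomial of weight `j`, with errors `κ`, probability `η`. -/
def Vis84 (d : Fin c → ℕ) (j U : ℕ) (C₀ : ℝ) (p : Ω → ℝ) (g : Ω → G) (bk : Ω → B)
    (ΘT : B → (Fin c → ℝ) → Fin c → ℝ) (FN : B → (Fin c → ℝ) → ℝ) (κ η : ℝ) : Prop :=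
  ∃ Hf : B → Pl c, (∀ x, (Hf x).IsWeightedHomogeneous d j) ∧
    (∀ x, CB (Hf x) (Real.exp (κ * U / 4))) ∧
    η ≤ P2 p g (fun ω ω' => ∀ z : Fin c → ℝ, (∀ i, |z i| ≤ C₀) →
      |FN (bk ω') z + eval (ΘT (bk ω') z) (Hf (bk ω')) -
        (FN (bk ω) z + eval (ΘT (bk ω) z) (Hf (bk ω)))| ≤ Real.exp (-(κ * U / 2)))

end

/-- **The core for live times.** -/
def CoreLStmt : Prop :=
  ∀ (c j D L : ℕ) (d : Fin c → ℕ) (i₀ : Fin c) (C₀ a ρ : ℝ), 1 ≤ L → 1 ≤ C₀ → 0 < a → 0 < ρ →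
    ρ ≤ 1 → ∃ η₀ : ℝ, 0 < η₀ ∧ ∀ (k : ℕ) (b : ℝ), 1 ≤ k → 0 < b →
    ∃ κ ρ' τ η' : ℝ, 0 < κ ∧ κ ≤ 1 ∧ 0 < ρ' ∧ ρ' ≤ 1 ∧ 0 < τ ∧ 0 < η' ∧ ∃ U₀ : ℕ,
    ∀ U m : ℕ, U₀ ≤ U → (m : ℝ) ≤ C₀ * U →
    ∀ (Ω G B 𝔅 𝒱 : Type) [Fintype Ω] (p : Ω → ℝ) (g : Ω → G) (bk : Ω → B) (β : Ω → 𝔅)
      (V : Ω → 𝒱) (tm : Ω → ℤ) (pT : Ω → Fin c → ℝ) (pN : Ω → ℝ)
      (ΘT : B → (Fin c → ℝ) → Fin c → ℝ) (FN : B → (Fin c → ℝ) → ℝ)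
      (ξT : 𝒱 → 𝔅 → Fin c → Pl c) (ξN : 𝒱 → 𝔅 → Pl c) (Dd : ℕ → Set Ω) (yc : Ω → Fin c → ℤ),
      LC d i₀ j D U m C₀ (τ * U) τ p g bk β V tm pT pN ΘT FN ξT ξN →
      Sbm d m p g bk β V tm ξT L (Real.exp (-(τ * U))) τ →
      (∀ i ω, 0 < p ω → ω ∉ Dd i → dead p g tm m k i ω ≤ 1 - b) →
      ∑ i ∈ range U, Pr p (Dd i) ≤ η₀ * U →
      ∑ i ∈ range ⌊ρ' * U⌋₊, Pr p (Dd i) ≤ η₀ * ⌊ρ' * U⌋₊ →
      (∀ ω, 0 < p ω → ∀ i, i ≠ i₀ → |(yc ω i : ℝ) - 2 ^ U * pT ω i| ≤ C₀) →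
      (∀ ω, 0 < p ω →
        (Set.ncard {n : ℤ | ∃ ω', 0 < p ω' ∧ β ω' = β ω ∧ tm ω' = tm ω ∧
          (∀ i, i ≠ i₀ → yc ω' i = yc ω i) ∧ ⌊pN ω'⌋ = ⌊pN ω⌋ ∧
          n = ⌊(2 : ℝ) ^ ⌊ρ * U⌋₊ * pN ω'⌋} : ℝ) ≤
          Real.exp ((1 - a) * ⌊ρ * U⌋₊ * Real.log 2 + τ * U)) →
      Vis84 d j U C₀ p g bk ΘT FN κ η'

theorem core_of (hF : LFulEStmt) : CoreLStmt := by
  intro c j D L d i₀ C₀ a ρ hL hC₀ ha hρ hρ1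
  obtain ⟨η₀, hη₀, h⟩ := cntL_of hF c j D (2 * L + 1) d i₀ C₀ a ρ (1 / 2) (by omega) hC₀ ha hρ hρ1
    (by norm_num)
  refine ⟨η₀, hη₀, ?_⟩
  intro k b hk hb
  obtain ⟨κ₁, ρ', τ₁, hκ₁, hρ'0, hρ'1, hτ₁, U₁, h1⟩ := h k b hk hb
  obtain ⟨τ₂, η', hτ₂, hη', U₂, h2⟩ := wlab0_thm c j L d C₀ (1 / 2) (min κ₁ 1) hL hC₀
    (by norm_num) (lt_min hκ₁ one_pos) (min_le_right _ _)
  refine ⟨min κ₁ 1, ρ', min τ₁ τ₂, η', lt_min hκ₁ one_pos, min_le_right _ _, hρ'0, hρ'1,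
    lt_min hτ₁ hτ₂, hη', max U₁ U₂, ?_⟩
  intro U m hU hm Ω G B 𝔅 𝒱 _ p g bk β V tm pT pN ΘT FN ξT ξN Dd yc hW hS hD hs1 hs2 hyc hcnt
  have hU0 : (0 : ℝ) ≤ U := Nat.cast_nonneg _
  have hle1 : min τ₁ τ₂ * U ≤ τ₁ * U := mul_le_mul_of_nonneg_right (min_le_left _ _) hU0
  have hle2 : min τ₁ τ₂ * U ≤ τ₂ * U := mul_le_mul_of_nonneg_right (min_le_right _ _) hU0
  have hflt := h1 U m ((le_max_left _ _).trans hU) hm Ω G B 𝔅 𝒱 p g bk β V tm pT pN ΘT FN ξT ξN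
    Dd yc (hW.mono84 hle1 (min_le_left _ _)) hD hs1 hs2 hyc (fun ω hω => (hcnt ω hω).trans
      (Real.exp_le_exp.2 (by linarith only [hle1])))
  have hflt' : Flt d j p g bk β V ξT ξN (2 * L + 1) (Real.exp (-(min κ₁ 1 * U))) (1 / 2) := by
    have h3 := Flt.mono84 (r' := Real.exp (-(min κ₁ 1 * U))) (Real.exp_le_exp.2 (by
      have := mul_le_mul_of_nonneg_right (min_le_left κ₁ (1 : ℝ)) hU0
      linarith only [this])) hflt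
    rwa [show (1 : ℝ) - 1 / 2 = 1 / 2 by norm_num] at h3
  have hS' : Sbm d m p g bk β V tm ξT L (Real.exp (-(τ₂ * U))) τ₂ := by
    intro W _ q z hMC
    refine (Pb_mono84 hMC.isLaw.nonneg fun w _ hn ht => hn ?_).trans
      ((hS W q z hMC).trans (min_le_right _ _))
    obtain ⟨e, he⟩ := ht
    exact ⟨e, (Real.exp_le_exp.2 (by linarith only [hle2])).trans he⟩
  exact h2 U m ((le_max_right _ _).trans hU) Ω G B 𝔅 𝒱 p g bk β V tm ΘT FN ξT ξN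
    (hW.mono84 hle2 (min_le_right _ _)).toWL84 hS' hflt'

/-- **The next layer for live times**: no visible polynomial, so the walks of `2 L + 1` legs are
submersions onto the base and the height. -/
theorem sbm_of (c j L : ℕ) (d : Fin c → ℕ) (C₀ τ' η : ℝ) (hL : 1 ≤ L) (hC₀ : 1 ≤ C₀)
    (hτ' : 0 < τ') (hη : 0 < η) :
    ∃ κ ρ η₀ η' τ₀ : ℝ, 0 < κ ∧ κ ≤ 1 ∧ 0 < ρ ∧ ρ ≤ 1 ∧ 0 < η₀ ∧
      η₀ = η / (16 * ((2 * L + 1 : ℕ) : ℝ) ^ (c + 2)) ∧ 0 < η' ∧ 0 < τ₀ ∧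
      ∀ (k : ℕ) (a : ℝ), 1 ≤ k → 0 < a →
      ∃ τ : ℝ, 0 < τ ∧ τ ≤ τ₀ ∧ ∃ U₀ : ℕ, ∀ U m : ℕ, U₀ ≤ U →
      ∀ (i₀ : Fin c) (D : ℕ) (Ω G B 𝔅 𝒱 : Type) [Fintype Ω] (p : Ω → ℝ) (g : Ω → G)
        (bk : Ω → B) (β : Ω → 𝔅) (V : Ω → 𝒱) (tm : Ω → ℤ) (pT : Ω → Fin c → ℝ) (pN : Ω → ℝ)
        (ΘT : B → (Fin c → ℝ) → Fin c → ℝ) (FN : B → (Fin c → ℝ) → ℝ)
        (ξT : 𝒱 → 𝔅 → Fin c → Pl c) (ξN : 𝒱 → 𝔅 → Pl c) (Dd : ℕ → Set Ω),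
        LC d i₀ j D U m C₀ (τ * U) τ p g bk β V tm pT pN ΘT FN ξT ξN →
        Sbm d m p g bk β V tm ξT L (Real.exp (-(τ₀ * U))) τ₀ →
        (∀ i ω, 0 < p ω → ω ∉ Dd i → dead p g tm m k i ω ≤ 1 - a) →
        ∑ i ∈ range ⌊ρ * U⌋₊, Pr p (Dd i) ≤ η₀ * ⌊ρ * U⌋₊ →
        ¬ Vis84 d j U C₀ p g bk ΘT FN κ η' →
        ∀ (W : Type) [Fintype W] (q : W → ℝ) (z : ℕ → W → Ω),
        MC p (alt g bk) (2 * (2 * L + 1) - 1) q z →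
        Pb q (fun w => ¬ ∃ e : Fin (c + 1) → Fin (2 * L + 1), Real.exp (-(τ' * U)) ≤
          |eval (len tm m (2 * L + 1) z w) (minA d j (lgT β V ξT (2 * L + 1) z w)
            (lgN β V ξN (2 * L + 1) z w) e)|) ≤ η := by
  obtain ⟨κ₁, ρ, η₀, hκ₁, hρ0, hρ1, hη₀, he, h⟩ := Pool.LIV84.bigL c j (2 * L + 1) d τ' η
    (by omega) hτ' hη
  obtain ⟨τ₂, η', hτ₂, hη', U₂, h2⟩ := wlab0_thm c j L d C₀ (η / 2) (min κ₁ 1) hL hC₀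
    (half_pos hη) (lt_min hκ₁ one_pos) (min_le_right _ _)
  refine ⟨min κ₁ 1, ρ, η₀, η', τ₂, lt_min hκ₁ one_pos, min_le_right _ _, hρ0, hρ1, hη₀, he, hη',
    hτ₂, ?_⟩
  intro k a hk ha
  obtain ⟨τ, hτ, U₁, h1⟩ := h k a hk ha
  refine ⟨min τ τ₂, lt_min hτ hτ₂, min_le_right _ _, max U₁ U₂, ?_⟩
  intro U m hU i₀ D Ω G B 𝔅 𝒱 _ p g bk β V tm pT pN ΘT FN ξT ξN Dd hW hS hD hs hV W _ q z hMC
  have hU0 : (0 : ℝ) ≤ U := Nat.cast_nonneg _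
  refine h1 (min τ τ₂) (min_le_left _ _) U m ((le_max_left _ _).trans hU) i₀ D C₀ Ω G B 𝔅 𝒱 p g
    bk β V tm pT pN ΘT FN ξT ξN Dd hW hD hs ?_ W q z hMC
  intro hflt
  apply hV
  have hle2 : min τ τ₂ * U ≤ τ₂ * U := mul_le_mul_of_nonneg_right (min_le_right _ _) hU0
  have hflt' : Flt d j p g bk β V ξT ξN (2 * L + 1) (Real.exp (-(min κ₁ 1 * U))) (η / 2) :=
    Flt.mono84 (Real.exp_le_exp.2 (by
      have := mul_le_mul_of_nonneg_right (min_le_left κ₁ (1 : ℝ)) hU0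
      linarith only [this])) hflt
  exact h2 U m ((le_max_right _ _).trans hU) Ω G B 𝔅 𝒱 p g bk β V tm ΘT FN ξT ξN
    (hW.mono84 hle2 (min_le_right _ _)).toWL84 hS hflt'

end Pool.LIV
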