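import Pool.Agent.H84.LIV.Dv
import Pool.Agent.H33.KAL.RMG

/-!
# Live times: small balls
-/

set_option autoImplicit false

namespace Pool.LIV84

open Finset Real
open Pool.Agent.H49.Ent Pool.Agent.H32.Dense Pool.STK Pool.KS3 Pool.OC.RS
open Pool.BFL (Pb P2 MC alt)
open Pool.KAF (Pr)
open Pool.LIV (win dead)

section

variable {Ω G : Type} [Fintype Ω] {p : Ω → ℝ} {g : Ω → G} {tm : Ω → ℤ} {m k : ℕ}

omit [Fintype Ω] in
theorem win_mono {i j : ℕ} (hij : i ≤ j) (hj : j ≤ m) {v ω : Ω}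
    (h : win tm m j v = win tm m j ω) : win tm m i v = win tm m i ω := by
  unfold win at h ⊢
  have e : (2 : ℕ) ^ (m - i) = 2 ^ (m - j) * 2 ^ (j - i) := by
    rw [← pow_add]
    congr 1
    omega
  have e' : (((2 : ℕ) ^ (m - i) : ℕ) : ℤ) = ((2 ^ (m - j) : ℕ) : ℤ) * ((2 ^ (j - i) : ℕ) : ℤ) := by
    exact_mod_cast e
  rw [e', ← Int.ediv_ediv_of_nonneg (by positivity), ← Int.ediv_ediv_of_nonneg (by positivity), h]

omit [Fintype Ω] in
theorem win_near {j : ℕ} (hj : j ≤ m) {v ω : Ω} (h : win tm m j v = win tm m j ω) :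
    ((|tm v - tm ω| : ℤ) : ℝ) / 2 ^ m < 1 / 2 ^ j := by
  unfold win at h
  have hs : (0 : ℤ) < ((2 ^ (m - j) : ℕ) : ℤ) := by positivity
  have h1 := Int.emod_add_mul_ediv (tm v) ((2 ^ (m - j) : ℕ) : ℤ)
  have h2 := Int.emod_add_mul_ediv (tm ω) ((2 ^ (m - j) : ℕ) : ℤ)
  have h3 := Int.emod_nonneg (tm v) hs.ne'
  have h4 := Int.emod_nonneg (tm ω) hs.ne'
  have h5 := Int.emod_lt_of_pos (tm v) hs
  have h6 := Int.emod_lt_of_pos (tm ω) hs
  rw [h] at h1
  have h7 : |tm v - tm ω| < ((2 ^ (m - j) : ℕ) : ℤ) := by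
    rw [abs_lt]
    constructor <;> linarith
  have h8 : ((|tm v - tm ω| : ℤ) : ℝ) < 2 ^ (m - j) := by exact_mod_cast h7
  rw [div_lt_div_iff₀ (by positivity) (by positivity)]
  calc ((|tm v - tm ω| : ℤ) : ℝ) * 2 ^ j < 2 ^ (m - j) * 2 ^ j :=
        mul_lt_mul_of_pos_right h8 (by positivity)
    _ = 1 * 2 ^ m := by rw [← pow_add, Nat.sub_add_cancel hj, one_mul]

/-- The mass of the window of level `i` of the line block. -/
noncomputable def ms (p : Ω → ℝ) (g : Ω → G) (tm : Ω → ℤ) (m i : ℕ) (ω : Ω) : ℝ :=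
  law p (fun v => (g v, win tm m i v)) (g ω, win tm m i ω)

theorem ms_pos (hp : ∀ ω, 0 ≤ p ω) (i : ℕ) {ω : Ω} (hω : 0 < p ω) : 0 < ms p g tm m i ω :=
  law_pos hp (fun v => (g v, win tm m i v)) hω

theorem ms_le (hp : ∀ ω, 0 ≤ p ω) (i : ℕ) {ω : Ω} : ms p g tm m i ω ≤ law p g (g ω) := by
  classical
  unfold ms law
  refine Finset.sum_le_sum fun v _ => ?_
  by_cases h : (g v, win tm m i v) = (g ω, win tm m i ω)
  · rw [if_pos h, if_pos (Prod.ext_iff.mp h).1]
  · rw [if_neg h]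
    split_ifs
    · exact hp v
    · exact le_rfl

theorem ms_anti (hp : ∀ ω, 0 ≤ p ω) {i j : ℕ} (hij : i ≤ j) (hj : j ≤ m) {ω : Ω} :
    ms p g tm m j ω ≤ ms p g tm m i ω := by
  classical
  unfold ms law
  refine Finset.sum_le_sum fun v _ => ?_
  by_cases h : (g v, win tm m j v) = (g ω, win tm m j ω)
  · have h' := Prod.ext_iff.mp h
    have h2 : (g v, win tm m i v) = (g ω, win tm m i ω) :=
      Prod.ext h'.1 (win_mono hij hj h'.2)
    rw [if_pos h, if_pos h2]
  · rw [if_neg h]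
    split_ifs
    · exact hp v
    · exact le_rfl

open Classical in
theorem Pr_sum84 (p : Ω → ℝ) (E : Set Ω) : Pr p E = ∑ ω, (if ω ∈ E then p ω else 0) := by
  unfold Pr Pool.Agent.H49.Ent.law
  refine Finset.sum_congr rfl fun ω _ => ?_
  by_cases h : ω ∈ E <;> simp [h]

/-- One step: the mass of the smaller window. -/
theorem ms_step (hp : ∀ ω, 0 ≤ p ω) {i : ℕ} (hi : i + k ≤ m) {ω : Ω} (hω : 0 < p ω) :
    ms p g tm m (i + k) ω ≤ dead p g tm m k i ω * ms p g tm m i ω := by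
  classical
  have h0 := ms_pos (g := g) (tm := tm) (m := m) hp i hω
  have h1 : dead p g tm m k i ω * ms p g tm m i ω =
      ∑ v, (if (g v, win tm m i v) = (g ω, win tm m i ω) ∧
        ((|tm v - tm ω| : ℤ) : ℝ) / 2 ^ m < 1 / 2 ^ (i + k) then p v else 0) := by
    unfold dead
    rw [Pr_sum84, Finset.sum_mul]
    refine Finset.sum_congr rfl fun v _ => ?_
    unfold Pool.Agent.H49.Ent.cond
    by_cases b : ((|tm v - tm ω| : ℤ) : ℝ) / 2 ^ m < 1 / 2 ^ (i + k)
    · rw [if_pos (show v ∈ {v | ((|tm v - tm ω| : ℤ) : ℝ) / 2 ^ m < 1 / 2 ^ (i + k)} from b)]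
      by_cases a : (g v, win tm m i v) = (g ω, win tm m i ω)
      · rw [if_pos a, if_pos ⟨a, b⟩]
        unfold ms at h0 ⊢
        field_simp
      · rw [if_neg a, if_neg (fun c => a c.1), zero_mul]
    · rw [if_neg (show v ∉ {v | ((|tm v - tm ω| : ℤ) : ℝ) / 2 ^ m < 1 / 2 ^ (i + k)} from b),
        if_neg (fun c => b c.2), zero_mul]
  rw [h1]
  unfold ms law
  refine Finset.sum_le_sum fun v _ => ?_
  by_cases h : (g v, win tm m (i + k) v) = (g ω, win tm m (i + k) ω)
  · have h' := Prod.ext_iff.mp h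
    rw [if_pos h, if_pos ⟨Prod.ext h'.1 (win_mono (by omega) hi h'.2), win_near hi h'.2⟩]
  · rw [if_neg h]
    split_ifs
    · exact hp v
    · exact le_rfl

open Classical in
/-- **The mass of a small window**, if many levels are live. -/
theorem ms_small (hp : ∀ ω, 0 ≤ p ω) {r : ℕ} (hr : r ≤ m) (hk : 1 ≤ k) (hkr : k ≤ r) {a : ℝ}
    {ω : Ω} (hω : 0 < p ω) :
    ms p g tm m r ω ≤ Real.exp (-(a / k *
      ((range (r - k)).filter fun i => dead p g tm m k i ω ≤ 1 - a).card)) * law p g (g ω) := by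
  set F : ℕ → ℝ := fun i => Real.log (ms p g tm m i ω) with hF
  set n : ℕ := ((range (r - k)).filter fun i => dead p g tm m k i ω ≤ 1 - a).card with hn
  have hg : 0 < law p g (g ω) := law_pos hp g hω
  have h1 : ∀ i < r - k, F (i + k) ≤ F i - (if dead p g tm m k i ω ≤ 1 - a then a else 0) := by
    intro i hi
    have hm := ms_pos (g := g) (tm := tm) (m := m) hp i hω
    have hm' := ms_pos (g := g) (tm := tm) (m := m) hp (i + k) hω
    simp only [hF]
    split_ifs with h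
    · rw [← Real.log_exp a, ← Real.log_div hm.ne' (Real.exp_pos a).ne']
      refine Real.log_le_log hm' ?_
      refine (ms_step hp (by omega) hω).trans ?_
      rw [le_div_iff₀ (Real.exp_pos a)]
      have h2 : dead p g tm m k i ω ≤ Real.exp (-a) := by
        have := Real.add_one_le_exp (-a)
        linarith
      calc dead p g tm m k i ω * ms p g tm m i ω * Real.exp a
          ≤ Real.exp (-a) * ms p g tm m i ω * Real.exp a := by
            refine mul_le_mul_of_nonneg_right (mul_le_mul_of_nonneg_right h2 hm.le)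
              (Real.exp_pos a).le
        _ = ms p g tm m i ω * (Real.exp (-a) * Real.exp a) := by ring
        _ = ms p g tm m i ω := by rw [← Real.exp_add, neg_add_cancel, Real.exp_zero, mul_one]
    · rw [sub_zero]
      exact Real.log_le_log hm' (ms_anti hp (by omega) (by omega))
  have h2 : ∑ i ∈ range (r - k), F (i + k) ≤ ∑ i ∈ range (r - k), F i - a * n := by
    refine (Finset.sum_le_sum fun i hi => h1 i (mem_range.mp hi)).trans ?_
    rw [Finset.sum_sub_distrib, ← Finset.sum_filter, Finset.sum_const, nsmul_eq_mul, hn]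
    linarith
  have h3 : ∑ i ∈ range r, F i = ∑ i ∈ range k, F i + ∑ i ∈ range (r - k), F (i + k) := by
    have := Finset.sum_range_add F k (r - k)
    rw [show k + (r - k) = r by omega] at this
    rw [this]
    congr 1
    exact Finset.sum_congr rfl fun i _ => by rw [add_comm]
  have h4 : ∑ i ∈ range r, F i = ∑ i ∈ range (r - k), F i + ∑ i ∈ range k, F (r - k + i) := by
    have := Finset.sum_range_add F (r - k) k
    rwa [show r - k + k = r by omega] at this
  have h5 : k * F r ≤ ∑ i ∈ range k, F (r - k + i) := by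
    have : ∑ _i ∈ range k, F r ≤ ∑ i ∈ range k, F (r - k + i) := by
      refine Finset.sum_le_sum fun i hi => ?_
      have hi' := mem_range.mp hi
      exact Real.log_le_log (ms_pos hp r hω) (ms_anti hp (by omega) hr)
    rwa [Finset.sum_const, card_range, nsmul_eq_mul] at this
  have h6 : ∑ i ∈ range k, F i ≤ k * Real.log (law p g (g ω)) := by
    have : ∑ i ∈ range k, F i ≤ ∑ _i ∈ range k, Real.log (law p g (g ω)) := by
      refine Finset.sum_le_sum fun i hi => ?_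
      exact Real.log_le_log (ms_pos hp i hω) (ms_le hp i)
    rwa [Finset.sum_const, card_range, nsmul_eq_mul] at this
  have hk0 : (0 : ℝ) < k := by exact_mod_cast hk
  have h7 : k * F r ≤ k * (Real.log (law p g (g ω)) - a / k * n) := by
    have e : k * (Real.log (law p g (g ω)) - a / k * n) =
        k * Real.log (law p g (g ω)) - a * n := by
      field_simp
    rw [e]
    linarith
  have h8 : F r ≤ Real.log (law p g (g ω)) - a / k * n := le_of_mul_le_mul_left h7 hk0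
  have hm := ms_pos (g := g) (tm := tm) (m := m) hp r hω
  rw [← Real.exp_log hm, ← Real.exp_log hg, ← Real.exp_add]
  refine Real.exp_le_exp.2 ?_
  simp only [hF] at h8
  linarith

omit [Fintype Ω] in
/-- A polynomial of one variable is small on few windows only. -/
theorem few_windows (D r : ℕ) (hr : r ≤ m) (E : Finset ℤ) (f : Polynomial ℝ) (t₀ : ℤ) (x₀ δ : ℝ)
    (hf : f.natDegree ≤ D) (hx : |x₀| ≤ 1)
    (hE : ∀ t ∈ E, |t - t₀| ≤ 2 ^ m ∧ |f.eval (((t - t₀ : ℤ) : ℝ) / 2 ^ m)| ≤ δ)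
    (hc : 2 * D + 2 ≤ (E.image fun t => t / ((2 ^ (m - r) : ℕ) : ℤ)).card) :
    |f.eval x₀| ≤ ((D : ℝ) + 1) * (2 * 2 ^ r) ^ D * δ := by
  classical
  set h : ℤ := ((2 ^ (m - r) : ℕ) : ℤ) with hh
  have hh0 : 0 < h := by positivity
  set Wn := E.image fun t => t / h with hWn
  set e := Wn.orderEmbOfFin rfl with he
  have hlt : ∀ i : Fin (D + 1), 2 * (i : ℕ) < Wn.card := fun i => by
    have := i.2
    omega
  have hmem : ∀ i : Fin (D + 1), ∃ t ∈ E, t / h = e ⟨2 * (i : ℕ), hlt i⟩ := by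
    intro i
    have h1 := Finset.orderEmbOfFin_mem Wn rfl ⟨2 * (i : ℕ), hlt i⟩
    exact Finset.mem_image.1 h1
  choose t ht ht' using hmem
  set v : Fin (D + 1) → ℝ := fun i => ((t i - t₀ : ℤ) : ℝ) / 2 ^ m with hv
  have hm0 : (0 : ℝ) < 2 ^ m := by positivity
  have key : ∀ i j : Fin (D + 1), i < j → 1 / 2 ^ r ≤ v j - v i := by
    intro i j hij
    have hij' : (i : ℕ) < j := hij
    have h2 := Pool.KAL.RMG.gap e (a := ⟨2 * (i : ℕ), hlt i⟩) (b := ⟨2 * (j : ℕ), hlt j⟩)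
      (Fin.mk_lt_mk.2 (by omega))
    rw [← ht' i, ← ht' j] at h2
    have h3 : (2 : ℤ) ≤ ((2 * (j : ℕ) : ℕ) : ℤ) - ((2 * (i : ℕ) : ℕ) : ℤ) := by omega
    have h4 : 2 ≤ t j / h - t i / h := h3.trans h2
    have h5 := Int.emod_add_mul_ediv (t j) h
    have h6 := Int.emod_add_mul_ediv (t i) h
    have h7 := Int.emod_nonneg (t j) hh0.ne'
    have h8 := Int.emod_lt_of_pos (t i) hh0
    have h9 : h ≤ t j - t i := by nlinarith
    have h10 : (2 : ℝ) ^ (m - r) ≤ ((t j - t i : ℤ) : ℝ) := by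
      have : (h : ℝ) ≤ ((t j - t i : ℤ) : ℝ) := by exact_mod_cast h9
      simpa [hh] using this
    have h11 : v j - v i = ((t j - t i : ℤ) : ℝ) / 2 ^ m := by
      simp only [hv]
      push_cast
      ring
    rw [h11, div_le_div_iff₀ (by positivity) hm0]
    calc (1 : ℝ) * 2 ^ m = 2 ^ (m - r) * 2 ^ r := by rw [← pow_add, Nat.sub_add_cancel hr, one_mul]
      _ ≤ ((t j - t i : ℤ) : ℝ) * 2 ^ r := mul_le_mul_of_nonneg_right h10 (by positivity)
  have h1 := Pool.KAL.RMG.lagrange_bound D f v x₀ 2 (1 / 2 ^ r) δ hf (by positivity) (by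
    intro i j hne
    rcases lt_or_gt_of_ne hne with h | h
    · rw [abs_sub_comm]
      exact (key i j h).trans (le_abs_self _)
    · exact (key j i h).trans (le_abs_self _)) (by
    intro i
    have h2 := (hE _ (ht i)).1
    have h3 : |v i| ≤ 1 := by
      simp only [hv]
      rw [abs_div, abs_of_pos hm0, div_le_one hm0]
      have : (((|t i - t₀| : ℤ)) : ℝ) ≤ 2 ^ m := by exact_mod_cast h2
      rwa [Int.cast_abs] at this
    calc |x₀ - v i| ≤ |x₀| + |v i| := abs_sub _ _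
      _ ≤ 2 := by linarith) (fun i => (hE _ (ht i)).2)
  have h2 : (2 : ℝ) / (1 / 2 ^ r) = 2 * 2 ^ r := by rw [div_div_eq_mul_div, div_one]
  rwa [h2] at h1

open Classical in
/-- The mass of a set of times covered by few windows of small mass. -/
theorem mass_le (hp : ∀ ω, 0 ≤ p ω) (D r : ℕ) (hr : r ≤ m) (f : Polynomial ℝ) (t₀ : ℤ)
    (x₀ δ ε : ℝ) (hε : 0 ≤ ε) (hf : f.natDegree ≤ D) (hx : |x₀| ≤ 1)
    (hbig : ((D : ℝ) + 1) * (2 * 2 ^ r) ^ D * δ < |f.eval x₀|) (γ : G) (S : ℤ → Prop)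
    (hS : ∀ t, S t → |t - t₀| ≤ 2 ^ m ∧ |f.eval (((t - t₀ : ℤ) : ℝ) / 2 ^ m)| ≤ δ ∧
      ∃ ω, 0 < p ω ∧ g ω = γ ∧ tm ω = t ∧ ms p g tm m r ω ≤ ε * law p g γ) :
    Pb p (fun ω => g ω = γ ∧ S (tm ω)) ≤ (2 * D + 1) * ε * law p g γ := by
  have hPb : Pb p (fun ω => g ω = γ ∧ S (tm ω)) =
      ∑ ω, (if g ω = γ ∧ S (tm ω) then p ω else 0) := by
    unfold Pb
    exact Finset.sum_congr rfl fun w' _ => by congr
  rw [hPb]
  set h : ℤ := ((2 ^ (m - r) : ℕ) : ℤ) with hh
  set E : Finset ℤ := (univ.filter fun ω => g ω = γ ∧ S (tm ω)).image tm with hE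
  have hES : ∀ t ∈ E, S t := by
    intro t ht
    obtain ⟨ω, hω, rfl⟩ := Finset.mem_image.1 ht
    exact (Finset.mem_filter.1 hω).2.2
  set Wn := E.image fun t => t / h with hWn
  have hcard : Wn.card ≤ 2 * D + 1 := by
    by_contra hc
    push Not at hc
    have := few_windows D r hr E f t₀ x₀ δ hf hx
      (fun t ht => ⟨(hS t (hES t ht)).1, (hS t (hES t ht)).2.1⟩) hc
    linarith
  have h1 : ∀ ω, (if g ω = γ ∧ S (tm ω) then p ω else 0) ≤
      ∑ n ∈ Wn, (if (g ω, win tm m r ω) = (γ, n) then p ω else 0) := by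
    intro ω
    by_cases hc : g ω = γ ∧ S (tm ω)
    · rw [if_pos hc]
      have hn : win tm m r ω ∈ Wn := by
        refine Finset.mem_image.2 ⟨tm ω, Finset.mem_image.2 ⟨ω, ?_, rfl⟩, rfl⟩
        exact Finset.mem_filter.2 ⟨mem_univ _, hc⟩
      have h2 := Finset.single_le_sum (f := fun n =>
        if (g ω, win tm m r ω) = (γ, n) then p ω else 0)
        (fun n _ => by split_ifs; exacts [hp ω, le_rfl]) hn
      refine le_trans ?_ h2
      rw [if_pos (by rw [hc.1])]
    · rw [if_neg hc]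
      exact Finset.sum_nonneg fun n _ => by split_ifs; exacts [hp ω, le_rfl]
  have h2 : ∀ n ∈ Wn, ∑ ω, (if (g ω, win tm m r ω) = (γ, n) then p ω else 0) ≤
      ε * law p g γ := by
    intro n hn
    obtain ⟨t, ht, rfl⟩ := Finset.mem_image.1 hn
    obtain ⟨_, _, ω₀, h3, h4, h5, h6⟩ := hS t (hES t ht)
    refine le_trans (le_of_eq ?_) h6
    unfold ms law
    refine Finset.sum_congr rfl fun ω _ => ?_
    have e : win tm m r ω₀ = t / h := by
      unfold win
      rw [h5]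
    rw [h4, e]
    congr
  calc ∑ ω, (if g ω = γ ∧ S (tm ω) then p ω else 0)
      ≤ ∑ ω, ∑ n ∈ Wn, (if (g ω, win tm m r ω) = (γ, n) then p ω else 0) :=
        Finset.sum_le_sum fun ω _ => h1 ω
    _ = ∑ n ∈ Wn, ∑ ω, (if (g ω, win tm m r ω) = (γ, n) then p ω else 0) := Finset.sum_comm
    _ ≤ ∑ _n ∈ Wn, ε * law p g γ := Finset.sum_le_sum h2
    _ = (Wn.card : ℝ) * (ε * law p g γ) := by rw [Finset.sum_const, nsmul_eq_mul]
    _ ≤ (2 * D + 1) * (ε * law p g γ) := by
        refine mul_le_mul_of_nonneg_right ?_ (mul_nonneg hε (law_nonneg hp _ _))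
        exact_mod_cast hcard
    _ = (2 * D + 1) * ε * law p g γ := by ring

end

end Pool.LIV84
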