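import Pool.Agent.H84.LIV.MinL

/-!
# Counting the digits of a height
-/

set_option autoImplicit false

namespace Pool.LIV84

open Finset Real
open Pool.Agent.H49.Ent Pool.Agent.H32.Dense Pool.STK Pool.KS3 Pool.OC.RS
open Pool.BFL (Pb P2 MC alt Pl CB)
open Pool.KAF (Pr)
open Pool.LIV
open Pool.STAT
open Pool.STAT84

/-- The value of a polynomial on a box. -/
theorem eval_le84 {n D : ℕ} {P : Pl n} {R C₀ : ℝ} (hD : P.totalDegree ≤ D) (hR : 0 ≤ R)
    (hP : CB P R) (hC₀ : 1 ≤ C₀) {z : Fin n → ℝ} (hz : ∀ i, |z i| ≤ C₀) :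
    |MvPolynomial.eval z P| ≤ ((D : ℝ) + 1) ^ n * (R * C₀ ^ D) := by
  classical
  rw [MvPolynomial.eval_eq]
  refine (Finset.abs_sum_le_sum_abs _ _).trans ?_
  have h1 : ∀ k ∈ P.support, |MvPolynomial.coeff k P * ∏ i ∈ k.support, z i ^ k i| ≤
      R * C₀ ^ D := by
    intro k hk
    rw [abs_mul, Finset.abs_prod]
    refine mul_le_mul (hP k) ?_ (Finset.prod_nonneg fun _ _ => abs_nonneg _) hR
    have h2 : ∏ i ∈ k.support, |z i ^ k i| ≤ ∏ i ∈ k.support, C₀ ^ k i := by
      refine Finset.prod_le_prod (fun _ _ => abs_nonneg _) fun i _ => ?_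
      rw [abs_pow]
      exact pow_le_pow_left₀ (abs_nonneg _) (hz i) _
    refine h2.trans ?_
    rw [Finset.prod_pow_eq_pow_sum]
    exact pow_le_pow_right₀ hC₀ ((MvPolynomial.le_totalDegree hk).trans hD)
  refine (Finset.sum_le_sum h1).trans ?_
  rw [Finset.sum_const, nsmul_eq_mul]
  refine mul_le_mul_of_nonneg_right ?_ (by positivity)
  exact_mod_cast Pool.STAT84.card_support_le hD

/-- Digits of the digits. -/
theorem floor_digits (x : ℝ) {U P : ℕ} (h : P ≤ U) :
    ⌊(2 : ℝ) ^ U * x⌋ / ((2 ^ (U - P) : ℕ) : ℤ) = ⌊(2 : ℝ) ^ P * x⌋ := by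
  symm
  rw [Int.floor_eq_iff]
  set M : ℤ := ((2 ^ (U - P) : ℕ) : ℤ) with hM
  have hM0 : 0 < M := by positivity
  have hMr : (M : ℝ) = 2 ^ (U - P) := by
    rw [hM]
    push_cast
    rfl
  have hU : (2 : ℝ) ^ U = M * 2 ^ P := by
    rw [hMr, ← pow_add, Nat.sub_add_cancel h]
  have h1 := Int.emod_add_mul_ediv ⌊(2 : ℝ) ^ U * x⌋ M
  have h2 := Int.emod_nonneg ⌊(2 : ℝ) ^ U * x⌋ hM0.ne'
  have h3 := Int.emod_lt_of_pos ⌊(2 : ℝ) ^ U * x⌋ hM0
  have h4 := Int.floor_le ((2 : ℝ) ^ U * x)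
  have h5 := Int.lt_floor_add_one ((2 : ℝ) ^ U * x)
  set n := ⌊(2 : ℝ) ^ U * x⌋
  have hMr0 : (0 : ℝ) < M := by exact_mod_cast hM0
  have h6 : M * (n / M) ≤ n := by linarith
  have h7 : n + 1 ≤ M * (n / M) + M := by linarith
  have h6' : (M : ℝ) * ((n / M : ℤ) : ℝ) ≤ n := by exact_mod_cast h6
  have h7' : (n : ℝ) + 1 ≤ M * ((n / M : ℤ) : ℝ) + M := by exact_mod_cast h7
  rw [hU] at h4 h5
  constructor
  · have : (M : ℝ) * ((n / M : ℤ) : ℝ) ≤ M * (2 ^ P * x) := by linarith
    exact le_of_mul_le_mul_left this hMr0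
  · have : (M : ℝ) * (2 ^ P * x) < M * (((n / M : ℤ) : ℝ) + 1) := by linarith
    exact lt_of_mul_lt_mul_left this hMr0.le

/-- Counting with the digits. -/
theorem card_digits (Hs : Finset ℤ) {U P : ℕ} (h : P ≤ U) {E : ℝ} (hE0 : 0 ≤ E) (B : ℕ)
    (hE : ∀ n₀, (((Hs.image fun x => x / ((2 ^ (U - P) : ℕ) : ℤ)).filter
      fun x => x / ((2 ^ P : ℕ) : ℤ) = n₀).card : ℝ) ≤ E)
    (hB : ∀ x ∈ Hs, |x / ((2 ^ U : ℕ) : ℤ)| ≤ B) :
    (Hs.card : ℝ) ≤ 2 ^ (U - P) * (E * (2 * B + 1)) := by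
  classical
  set M : ℤ := ((2 ^ (U - P) : ℕ) : ℤ) with hM
  have hM0 : 0 < M := by positivity
  set K := Hs.image fun x => x / M with hK
  have h1 : Hs.card ≤ 2 ^ (U - P) * K.card := by
    refine Finset.card_le_mul_card_image (f := fun x => x / M) Hs _ ?_
    intro a _
    have h2 : Hs.filter (fun x => x / M = a) ⊆ Finset.Ico (M * a) (M * a + M) := by
      intro x hx
      have h3 := (Finset.mem_filter.1 hx).2
      have h4 := Int.emod_add_mul_ediv x M
      have h5 := Int.emod_nonneg x hM0.ne'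
      have h6 := Int.emod_lt_of_pos x hM0
      rw [h3] at h4
      rw [Finset.mem_Ico]
      constructor <;> linarith
    refine (Finset.card_le_card h2).trans (le_of_eq ?_)
    rw [Int.card_Ico, add_sub_cancel_left, hM, Int.toNat_natCast]
  have h2 : K.card ≤ ⌊E⌋₊ * (K.image fun x => x / ((2 ^ P : ℕ) : ℤ)).card := by
    refine Finset.card_le_mul_card_image (f := fun x => x / ((2 ^ P : ℕ) : ℤ)) K _ ?_
    intro a _
    exact Nat.le_floor (hE a)
  have h3 : (K.image fun x => x / ((2 ^ P : ℕ) : ℤ)).card ≤ 2 * B + 1 := by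
    have h4 : (K.image fun x => x / ((2 ^ P : ℕ) : ℤ)) ⊆ Finset.Icc (-(B : ℤ)) B := by
      intro y hy
      obtain ⟨x, hx, rfl⟩ := Finset.mem_image.1 hy
      obtain ⟨t, ht, rfl⟩ := Finset.mem_image.1 hx
      have h5 := hB t ht
      have h6 : t / M / ((2 ^ P : ℕ) : ℤ) = t / ((2 ^ U : ℕ) : ℤ) := by
        rw [Int.ediv_ediv_of_nonneg hM0.le, hM, ← Nat.cast_mul, ← pow_add, Nat.sub_add_cancel h]
      rw [h6, Finset.mem_Icc]
      exact abs_le.1 h5
    refine (Finset.card_le_card h4).trans (le_of_eq ?_)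
    rw [Int.card_Icc]
    omega
  have h4 : (⌊E⌋₊ : ℝ) ≤ E := Nat.floor_le hE0
  have h1' : (Hs.card : ℝ) ≤ 2 ^ (U - P) * K.card := by exact_mod_cast h1
  have h2' : (K.card : ℝ) ≤ ⌊E⌋₊ * (K.image fun x => x / ((2 ^ P : ℕ) : ℤ)).card := by
    exact_mod_cast h2
  have h3' : ((K.image fun x => x / ((2 ^ P : ℕ) : ℤ)).card : ℝ) ≤ 2 * B + 1 := by
    exact_mod_cast h3
  refine h1'.trans (mul_le_mul_of_nonneg_left (h2'.trans ?_) (by positivity))
  exact mul_le_mul h4 h3' (by positivity) hE0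

/-- Counting vectors with one exceptional coordinate. -/
theorem card_vec {c : ℕ} (i₀ : Fin c) (T : Finset (Fin c → ℤ)) (B₁ : ℕ) {E : ℝ} (hE0 : 0 ≤ E)
    (hB : ∀ y ∈ T, ∀ i, i ≠ i₀ → |y i| ≤ B₁)
    (hE : ∀ s : Fin c → ℤ, ((((T.filter fun y => ∀ i, i ≠ i₀ → y i = s i).image
      fun y => y i₀)).card : ℝ) ≤ E) :
    (T.card : ℝ) ≤ (2 * B₁ + 1) ^ (c - 1) * E := by
  classical
  have h1 : T.card ≤ ⌊E⌋₊ * (T.image fun y => Function.update y i₀ 0).card := by
    refine Finset.card_le_mul_card_image (f := fun y => Function.update y i₀ 0) T _ ?_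
    intro a _
    refine Nat.le_floor ?_
    refine le_trans ?_ (hE a)
    have h2 : (T.filter fun y => Function.update y i₀ 0 = a).card =
        ((T.filter fun y => Function.update y i₀ 0 = a).image fun y => y i₀).card := by
      symm
      refine Finset.card_image_of_injOn ?_
      intro y hy y' hy' e
      have e1 := (Finset.mem_filter.1 (Finset.mem_coe.1 hy)).2
      have e2 := (Finset.mem_filter.1 (Finset.mem_coe.1 hy')).2
      funext i
      by_cases hi : i = i₀
      · rw [hi]; exact e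
      · have := congrFun (e1.trans e2.symm) i
        rwa [Function.update_of_ne hi, Function.update_of_ne hi] at this
    rw [h2]
    have h3 : ((T.filter fun y => Function.update y i₀ 0 = a).image fun y => y i₀) ⊆
        ((T.filter fun y => ∀ i, i ≠ i₀ → y i = a i).image fun y => y i₀) := by
      refine Finset.image_subset_image ?_
      intro y hy
      rw [Finset.mem_filter] at hy ⊢
      refine ⟨hy.1, fun i hi => ?_⟩
      have := congrFun hy.2 i
      rwa [Function.update_of_ne hi] at this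
    exact_mod_cast Finset.card_le_card h3
  have h2 : (T.image fun y => Function.update y i₀ 0).card ≤ (2 * B₁ + 1) ^ (c - 1) := by
    have h3 : (T.image fun y => Function.update y i₀ 0) ⊆
        Fintype.piFinset fun i => if i = i₀ then {(0 : ℤ)} else Finset.Icc (-(B₁ : ℤ)) B₁ := by
      intro y hy
      obtain ⟨x, hx, rfl⟩ := Finset.mem_image.1 hy
      rw [Fintype.mem_piFinset]
      intro i
      by_cases hi : i = i₀
      · rw [if_pos hi, hi, Function.update_self]
        exact Finset.mem_singleton_self _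
      · rw [if_neg hi, Function.update_of_ne hi, Finset.mem_Icc]
        exact abs_le.1 (hB x hx i hi)
    refine (Finset.card_le_card h3).trans (le_of_eq ?_)
    rw [Fintype.card_piFinset]
    have h4 : ∀ i : Fin c, (if i = i₀ then {(0 : ℤ)} else Finset.Icc (-(B₁ : ℤ)) B₁).card =
        if i = i₀ then 1 else 2 * B₁ + 1 := by
      intro i
      split_ifs
      · simp
      · rw [Int.card_Icc]
        omega
    rw [Finset.prod_congr rfl fun i _ => h4 i, Finset.prod_ite, Finset.prod_const_one, one_mul,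
      Finset.prod_const]
    congr 1
    rw [Finset.filter_ne', Finset.card_erase_of_mem (Finset.mem_univ _), Finset.card_univ,
      Fintype.card_fin]
  have h4 : (⌊E⌋₊ : ℝ) ≤ E := Nat.floor_le hE0
  have h1' : (T.card : ℝ) ≤ ⌊E⌋₊ * (T.image fun y => Function.update y i₀ 0).card := by
    exact_mod_cast h1
  have h2' : ((T.image fun y => Function.update y i₀ 0).card : ℝ) ≤ (2 * B₁ + 1) ^ (c - 1) := by
    exact_mod_cast h2
  refine h1'.trans ?_
  rw [mul_comm]
  exact mul_le_mul h2' h4 (by positivity) (by positivity)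

end Pool.LIV84
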