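import Pool.Agent.H84.LIV.Cnt0

/-!
# The number of the positions, given `β` and the time
-/

set_option autoImplicit false

namespace Pool.LIV84

open Finset Real
open Pool.Agent.H49.Ent Pool.Agent.H32.Dense Pool.STK Pool.KS3 Pool.OC.RS
open Pool.BFL (Pb P2 MC alt Pl CB)
open Pool.KAF (Pr)
open Pool.LIV
open Pool.STAT
open Pool.STAT84

section

variable {c : ℕ} {Ω G B 𝔅 𝒱 : Type} [Fintype Ω] {p : Ω → ℝ} {β : Ω → 𝔅} {tm : Ω → ℤ}

open Classical in
/-- The digits of the position: cells of the space, and the height (on the event `Ow`). -/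
noncomputable def Yp (i₀ : Fin c) (U : ℕ) (pN : Ω → ℝ) (Ow : Ω → Prop) (yc : Ω → Fin c → ℤ)
    (ω : Ω) : Fin c → ℤ :=
  Function.update (yc ω) i₀ ⌊(2 : ℝ) ^ U * (if Ow ω then pN ω else 0)⌋

open Classical in
/-- **The number of the positions given `β` and the time.** -/
theorem count_Y (hp : IsLaw p) (i₀ : Fin c) {U P : ℕ} (hPU : P ≤ U) (pN : Ω → ℝ) (Ow : Ω → Prop)
    (yc : Ω → Fin c → ℤ) (B₁ B₂ : ℕ) (X : ℝ)
    (hB₁ : ∀ ω, 0 < p ω → ∀ i, i ≠ i₀ → |yc ω i| ≤ B₁)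
    (hB₂ : ∀ ω, 0 < p ω → Ow ω → |pN ω| ≤ B₂)
    (hX : ∀ ω, 0 < p ω → (Set.ncard {n : ℤ | ∃ ω', 0 < p ω' ∧ β ω' = β ω ∧ tm ω' = tm ω ∧
      (∀ i, i ≠ i₀ → yc ω' i = yc ω i) ∧ ⌊pN ω'⌋ = ⌊pN ω⌋ ∧ n = ⌊(2 : ℝ) ^ P * pN ω'⌋} : ℝ) ≤
        Real.exp X) (b : 𝔅) (t : ℤ) :
    (((univ.filter fun ω => 0 < p ω ∧ β ω = b ∧ tm ω = t).image
      (Yp i₀ U pN Ow yc)).card : ℝ) ≤
      (2 * B₁ + 1) ^ (c - 1) * (2 ^ (U - P) * (2 * Real.exp X * (2 * ((B₂ + 1 : ℕ) : ℝ) + 1))) := by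
  have hfin : ∀ ω, ({n : ℤ | ∃ ω', 0 < p ω' ∧ β ω' = β ω ∧ tm ω' = tm ω ∧
      (∀ i, i ≠ i₀ → yc ω' i = yc ω i) ∧ ⌊pN ω'⌋ = ⌊pN ω⌋ ∧
      n = ⌊(2 : ℝ) ^ P * pN ω'⌋}).Finite := by
    intro ω
    refine (Set.finite_range fun ω' : Ω => ⌊(2 : ℝ) ^ P * pN ω'⌋).subset ?_
    rintro n ⟨ω', _, _, _, _, _, rfl⟩
    exact ⟨ω', rfl⟩
  -- the exponent is not negative
  have hX1 : 1 ≤ Real.exp X := by
    obtain ⟨ω, hω⟩ : ∃ ω, 0 < p ω := by
      by_contra h
      push Not at h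
      have h5 : ∑ ω, p ω ≤ 0 := sum_nonpos fun w _ => h w
      rw [hp.sum_one] at h5
      exact absurd h5 (by norm_num)
    refine le_trans ?_ (hX ω hω)
    have : 0 < Set.ncard {n : ℤ | ∃ ω', 0 < p ω' ∧ β ω' = β ω ∧ tm ω' = tm ω ∧
      (∀ i, i ≠ i₀ → yc ω' i = yc ω i) ∧ ⌊pN ω'⌋ = ⌊pN ω⌋ ∧
      n = ⌊(2 : ℝ) ^ P * pN ω'⌋} := by
      rw [Set.ncard_pos (hfin ω)]
      exact ⟨_, ω, hω, rfl, rfl, fun _ _ => rfl, rfl, rfl⟩
    exact_mod_cast this
  set T := (univ.filter fun ω => 0 < p ω ∧ β ω = b ∧ tm ω = t).image (Yp i₀ U pN Ow yc) with hT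
  have hmem : ∀ y ∈ T, ∃ ω, 0 < p ω ∧ β ω = b ∧ tm ω = t ∧ Yp i₀ U pN Ow yc ω = y := by
    intro y hy
    obtain ⟨ω, hω, e⟩ := Finset.mem_image.1 hy
    have h1 := (Finset.mem_filter.1 hω).2
    exact ⟨ω, h1.1, h1.2.1, h1.2.2, e⟩
  have hoff : ∀ ω i, i ≠ i₀ → Yp i₀ U pN Ow yc ω i = yc ω i := fun ω i hi =>
    Function.update_of_ne hi _ _
  have hat : ∀ ω, Yp i₀ U pN Ow yc ω i₀ = ⌊(2 : ℝ) ^ U * (if Ow ω then pN ω else 0)⌋ := fun ω =>
    Function.update_self _ _ _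
  refine card_vec i₀ T B₁ (by positivity) ?_ ?_
  · intro y hy i hi
    obtain ⟨ω, h1, _, _, rfl⟩ := hmem y hy
    rw [hoff ω i hi]
    exact hB₁ ω h1 i hi
  · intro s
    set Hs := (T.filter fun y => ∀ i, i ≠ i₀ → y i = s i).image fun y => y i₀ with hHs
    have hmem2 : ∀ x ∈ Hs, ∃ ω, 0 < p ω ∧ β ω = b ∧ tm ω = t ∧ (∀ i, i ≠ i₀ → yc ω i = s i) ∧
        ⌊(2 : ℝ) ^ U * (if Ow ω then pN ω else 0)⌋ = x := by
      intro x hx
      obtain ⟨y, hy, rfl⟩ := Finset.mem_image.1 hx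
      obtain ⟨hy1, hy2⟩ := Finset.mem_filter.1 hy
      obtain ⟨ω, h1, h2, h3, rfl⟩ := hmem y hy1
      refine ⟨ω, h1, h2, h3, fun i hi => ?_, (hat ω).symm⟩
      rw [← hoff ω i hi]
      exact hy2 i hi
    refine card_digits Hs hPU (by positivity) (B₂ + 1) ?_ ?_
    · intro n₀
      set K := (Hs.image fun x => x / ((2 ^ (U - P) : ℕ) : ℤ)).filter
        fun x => x / ((2 ^ P : ℕ) : ℤ) = n₀ with hK
      have hmem3 : ∀ x ∈ K, ∃ ω, 0 < p ω ∧ β ω = b ∧ tm ω = t ∧ (∀ i, i ≠ i₀ → yc ω i = s i) ∧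
          ⌊(2 : ℝ) ^ P * (if Ow ω then pN ω else 0)⌋ = x ∧
          ⌊(if Ow ω then pN ω else 0)⌋ = n₀ := by
        intro x hx
        obtain ⟨hx1, hx2⟩ := Finset.mem_filter.1 hx
        obtain ⟨y, hy, rfl⟩ := Finset.mem_image.1 hx1
        obtain ⟨ω, h1, h2, h3, h4, rfl⟩ := hmem2 y hy
        refine ⟨ω, h1, h2, h3, h4, (floor_digits _ hPU).symm, ?_⟩
        rw [← hx2]
        rw [floor_digits _ hPU]
        have h5 := floor_digits (if Ow ω then pN ω else 0) (U := P) (P := 0) (Nat.zero_le _)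
        rw [Nat.sub_zero, pow_zero, one_mul] at h5
        exact h5.symm
      by_cases hex : ∃ ω₀, 0 < p ω₀ ∧ β ω₀ = b ∧ tm ω₀ = t ∧ (∀ i, i ≠ i₀ → yc ω₀ i = s i) ∧
          Ow ω₀ ∧ ⌊pN ω₀⌋ = n₀
      · obtain ⟨ω₀, g1, g2, g3, g4, g5, g6⟩ := hex
        set S := {n : ℤ | ∃ ω', 0 < p ω' ∧ β ω' = β ω₀ ∧ tm ω' = tm ω₀ ∧
          (∀ i, i ≠ i₀ → yc ω' i = yc ω₀ i) ∧ ⌊pN ω'⌋ = ⌊pN ω₀⌋ ∧
          n = ⌊(2 : ℝ) ^ P * pN ω'⌋} with hS
        have hSf : S.Finite := hfin ω₀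
        have h1 : K ⊆ insert 0 hSf.toFinset := by
          intro x hx
          obtain ⟨ω, h1, h2, h3, h4, h5, h6⟩ := hmem3 x hx
          by_cases hO : Ow ω
          · rw [if_pos hO] at h5 h6
            refine Finset.mem_insert_of_mem ?_
            rw [Set.Finite.mem_toFinset]
            exact ⟨ω, h1, h2.trans g2.symm, h3.trans g3.symm,
              fun i hi => (h4 i hi).trans (g4 i hi).symm, h6.trans g6.symm, h5.symm⟩
          · rw [if_neg hO] at h5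
            rw [← h5]
            simp
        have h2 : (K.card : ℝ) ≤ Real.exp X + 1 := by
          have h3 := (Finset.card_le_card h1).trans (Finset.card_insert_le _ _)
          have h4 : (K.card : ℝ) ≤ hSf.toFinset.card + 1 := by exact_mod_cast h3
          have h5 := hX ω₀ g1
          rw [Set.ncard_eq_toFinset_card _ (hfin ω₀)] at h5
          have h6 : hSf.toFinset = (hfin ω₀).toFinset := rfl
          rw [h6] at h4
          linarith
        linarith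
      · have h1 : K ⊆ {0} := by
          intro x hx
          obtain ⟨ω, h1, h2, h3, h4, h5, h6⟩ := hmem3 x hx
          by_cases hO : Ow ω
          · rw [if_pos hO] at h6
            exact absurd ⟨ω, h1, h2, h3, h4, hO, h6⟩ hex
          · rw [if_neg hO] at h5
            rw [← h5]
            simp
        have h2 : K.card ≤ 1 := (Finset.card_le_card h1).trans (by simp)
        have h3 : (K.card : ℝ) ≤ 1 := by exact_mod_cast h2
        linarith
    · intro x hx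
      obtain ⟨ω, h1, _, _, _, rfl⟩ := hmem2 x hx
      have h5 := floor_digits (if Ow ω then pN ω else 0) (U := U) (P := 0) (Nat.zero_le _)
      rw [Nat.sub_zero, pow_zero, one_mul] at h5
      rw [h5]
      by_cases hO : Ow ω
      · rw [if_pos hO]
        have h2 := hB₂ ω h1 hO
        rw [abs_le] at h2 ⊢
        constructor
        · rw [Int.le_floor]
          push_cast
          linarith [h2.1]
        · have : ⌊pN ω⌋ ≤ (B₂ : ℤ) := by
            rw [Int.floor_le_iff]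
            push_cast
            linarith [h2.2]
          push_cast
          linarith
      · rw [if_neg hO]
        simp
        positivity

variable {W : Type} [Fintype W] {g : Ω → G} {bk : Ω → B} {V : Ω → 𝒱} {N : ℕ} {q : W → ℝ}
  {z : ℕ → W → Ω}

open Classical in
/-- **The upper bound**: the position given the context, on an event of the context. -/
theorem upper_A {θ : ℝ} (hI : WI p g bk β V tm θ)
    (h : MC p (alt g bk) (2 * N - 1) q z) (A : Set W)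
    (hA : ∀ w w', 0 < q w → 0 < q w' → CX β V tm N z w = CX β V tm N z w' → w ∈ A → w' ∈ A)
    (Y : Ω → Fin c → ℤ) {M : ℝ}
    (hY : ∀ (b : 𝔅) (t : ℤ), (((univ.filter fun ω => 0 < p ω ∧ β ω = b ∧ tm ω = t).image Y).card :
      ℝ) ≤ Real.exp M) :
    CH q (fun w => if w ∈ A then Y (z (2 * N - 1) w) else 0) (CX β V tm N z) ≤ Pr q A * M := by
  have hq := h.isLaw
  have hq0 := hq.nonneg
  set F : (Fin N → 𝒱) × (Fin (N + 1) → ℤ) × 𝔅 → Finset (Fin c → ℤ) := fun cx =>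
    if ∃ w, 0 < q w ∧ w ∈ A ∧ CX β V tm N z w = cx then
      (univ.filter fun ω => 0 < p ω ∧ β ω = cx.2.2 ∧ tm ω = cx.2.1 (Fin.last N)).image Y
    else {0} with hF
  have h1 := CH_le_card hq0 hq.sum_one (fun w => if w ∈ A then Y (z (2 * N - 1) w) else 0)
    (CX β V tm N z) F (by
      intro w hw
      by_cases hwA : w ∈ A
      · have h2 : ∃ w', 0 < q w' ∧ w' ∈ A ∧ CX β V tm N z w' = CX β V tm N z w :=
          ⟨w, hw, hwA, rfl⟩
        simp only [hF]
        rw [if_pos hwA, if_pos h2]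
        refine Finset.mem_image_of_mem _ (Finset.mem_filter.2 ⟨mem_univ _, ?_, ?_, ?_⟩)
        · exact (h.marg _ le_rfl).pos hq0 hw
        · exact chain_const h β (fun i _ => hI.alt_β i) w hw _ le_rfl
        · show tm (z (2 * N - 1) w) = tm (z (min (2 * ((Fin.last N : Fin (N + 1)) : ℕ)) (2 * N - 1)) w)
          rw [Fin.val_last, min_eq_right (by omega)]
      · have h2 : ¬ ∃ w', 0 < q w' ∧ w' ∈ A ∧ CX β V tm N z w' = CX β V tm N z w := by
          rintro ⟨w', a, b, e⟩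
          exact hwA (hA w' w a hw e b)
        simp only [hF]
        rw [if_neg hwA, if_neg h2]
        exact Finset.mem_singleton_self _)
  refine h1.trans ?_
  unfold Pool.Agent.H32.Dense.Ex
  rw [Pr_sum84, Finset.sum_mul]
  refine Finset.sum_le_sum fun w _ => ?_
  by_cases hw0 : q w = 0
  · rw [hw0]
    simp
  have hw : 0 < q w := lt_of_le_of_ne (hq0 w) (Ne.symm hw0)
  by_cases hwA : w ∈ A
  · rw [if_pos hwA]
    refine mul_le_mul_of_nonneg_left ?_ hw.le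
    show Real.log ((F (CX β V tm N z w)).card) ≤ M
    have h2 : ∃ w', 0 < q w' ∧ w' ∈ A ∧ CX β V tm N z w' = CX β V tm N z w :=
      ⟨w, hw, hwA, rfl⟩
    have h3 : F (CX β V tm N z w) = (univ.filter fun ω => 0 < p ω ∧
        β ω = (CX β V tm N z w).2.2 ∧ tm ω = (CX β V tm N z w).2.1 (Fin.last N)).image Y := by
      simp only [hF]
      rw [if_pos h2]
    rw [h3]
    have h4 := hY (CX β V tm N z w).2.2 ((CX β V tm N z w).2.1 (Fin.last N))
    rcases Nat.eq_zero_or_pos ((univ.filter fun ω => 0 < p ω ∧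
        β ω = (CX β V tm N z w).2.2 ∧ tm ω = (CX β V tm N z w).2.1 (Fin.last N)).image Y).card
      with h0 | h0
    · exfalso
      rw [Finset.card_eq_zero] at h0
      have h5 : Y (z (2 * N - 1) w) ∈ (univ.filter fun ω => 0 < p ω ∧
        β ω = (CX β V tm N z w).2.2 ∧ tm ω = (CX β V tm N z w).2.1 (Fin.last N)).image Y := by
        refine Finset.mem_image_of_mem _ (Finset.mem_filter.2 ⟨mem_univ _, ?_, ?_, ?_⟩)
        · exact (h.marg _ le_rfl).pos hq0 hw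
        · exact chain_const h β (fun i _ => hI.alt_β i) w hw _ le_rfl
        · show tm (z (2 * N - 1) w) = tm (z (min (2 * ((Fin.last N : Fin (N + 1)) : ℕ)) (2 * N - 1)) w)
          rw [Fin.val_last, min_eq_right (by omega)]
      rw [h0] at h5
      exact absurd h5 (Finset.notMem_empty _)
    · have h5 := Real.log_le_log (by exact_mod_cast h0) h4
      rwa [Real.log_exp] at h5
  · have h2 : ¬ ∃ w', 0 < q w' ∧ w' ∈ A ∧ CX β V tm N z w' = CX β V tm N z w := by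
      rintro ⟨w', a, b, e⟩
      exact hwA (hA w' w a hw e b)
    have h3 : F (CX β V tm N z w) = {0} := by
      simp only [hF]
      rw [if_neg h2]
    show q w * Real.log ((F (CX β V tm N z w)).card) ≤ _
    rw [h3, if_neg hwA]
    simp

end

end Pool.LIV84
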