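import Pool.Agent.H84.LIV.Cnt1
import Pool.Agent.H67.BFL.Mch

/-!
# Live times: (A) COUNT
-/

set_option autoImplicit false

namespace Pool.LIV

open Finset MvPolynomial
open Pool.Agent.H49.Ent Pool.Agent.H32.Dense Pool.STK Pool.KS3
open Pool.BFL (Pl CB Pb P2 MC alt)
open Pool.KAF (Pr)
open Pool.STAT
open Pool.STAT84

/-- **(A) COUNT, live times.** If the first `ρ U` digits of the height are not full given `β`, the
time and the cell of the space, then the walks are flat with probability at least `1 - η`. -/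
def CntLStmt : Prop :=
  ∀ (c j D N : ℕ) (d : Fin c → ℕ) (i₀ : Fin c) (C₀ a ρ η : ℝ), 1 ≤ N → 1 ≤ C₀ → 0 < a → 0 < ρ →
    ρ ≤ 1 → 0 < η → ∃ η₀ : ℝ, 0 < η₀ ∧ ∀ (k : ℕ) (b : ℝ), 1 ≤ k → 0 < b →
    ∃ κ ρ' τ : ℝ, 0 < κ ∧ 0 < ρ' ∧ ρ' ≤ 1 ∧ 0 < τ ∧ ∃ U₀ : ℕ, ∀ U m : ℕ, U₀ ≤ U →
    (m : ℝ) ≤ C₀ * U →
    ∀ (Ω G B 𝔅 𝒱 : Type) [Fintype Ω] (p : Ω → ℝ) (g : Ω → G) (bk : Ω → B) (β : Ω → 𝔅)
      (V : Ω → 𝒱) (tm : Ω → ℤ) (pT : Ω → Fin c → ℝ) (pN : Ω → ℝ)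
      (ΘT : B → (Fin c → ℝ) → Fin c → ℝ) (FN : B → (Fin c → ℝ) → ℝ)
      (ξT : 𝒱 → 𝔅 → Fin c → Pl c) (ξN : 𝒱 → 𝔅 → Pl c) (Dd : ℕ → Set Ω) (yc : Ω → Fin c → ℤ),
      LC d i₀ j D U m C₀ (τ * U) τ p g bk β V tm pT pN ΘT FN ξT ξN →
      (∀ i ω, 0 < p ω → ω ∉ Dd i → dead p g tm m k i ω ≤ 1 - b) →
      ∑ i ∈ range U, Pr p (Dd i) ≤ η₀ * U →
      ∑ i ∈ range ⌊ρ' * U⌋₊, Pr p (Dd i) ≤ η₀ * ⌊ρ' * U⌋₊ →
      (∀ ω, 0 < p ω → ∀ i, i ≠ i₀ → |(yc ω i : ℝ) - 2 ^ U * pT ω i| ≤ C₀) →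
      (∀ ω, 0 < p ω →
        (Set.ncard {n : ℤ | ∃ ω', 0 < p ω' ∧ β ω' = β ω ∧ tm ω' = tm ω ∧
          (∀ i, i ≠ i₀ → yc ω' i = yc ω i) ∧ ⌊pN ω'⌋ = ⌊pN ω⌋ ∧
          n = ⌊(2 : ℝ) ^ ⌊ρ * U⌋₊ * pN ω'⌋} : ℝ) ≤
          Real.exp ((1 - a) * ⌊ρ * U⌋₊ * Real.log 2 + τ * U)) →
      Flt d j p g bk β V ξT ξN N (Real.exp (-(κ * U))) (1 - η)

section

variable {c : ℕ} {Ω G B 𝔅 𝒱 : Type} [Fintype Ω] {d : Fin c → ℕ} {i₀ : Fin c}
    {j D U m : ℕ} {C₀ θ η : ℝ} {p : Ω → ℝ} {g : Ω → G} {bk : Ω → B} {β : Ω → 𝔅} {V : Ω → 𝒱}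
    {tm : Ω → ℤ} {pT : Ω → Fin c → ℝ} {pN : Ω → ℝ} {ΘT : B → (Fin c → ℝ) → Fin c → ℝ}
    {FN : B → (Fin c → ℝ) → ℝ} {ξT : 𝒱 → 𝔅 → Fin c → Pl c} {ξN : 𝒱 → 𝔅 → Pl c}

theorem P2_mono84 (hp : ∀ ω, 0 ≤ p ω) {A A' : Ω → Ω → Prop} (h : ∀ ω ω', A ω ω' → A' ω ω') :
    P2 p g A ≤ P2 p g A' := by
  classical
  unfold P2
  refine Finset.sum_le_sum fun ω _ => Finset.sum_le_sum fun ω' _ => ?_
  by_cases hA : g ω = g ω' ∧ A ω ω'
  · rw [if_pos hA, if_pos ⟨hA.1, h _ _ hA.2⟩]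
  · rw [if_neg hA]
    split_ifs
    · exact div_nonneg (mul_nonneg (hp _) (hp _)) (law_nonneg hp _ _)
    · exact le_rfl

/-- The structure is monotone in the errors. -/
theorem LC.mono84 (h : LC d i₀ j D U m C₀ θ η p g bk β V tm pT pN ΘT FN ξT ξN) {θ' η' : ℝ}
    (hθ : θ ≤ θ') (hη : η ≤ η') :
    LC d i₀ j D U m C₀ θ' η' p g bk β V tm pT pN ΘT FN ξT ξN := by
  have he : Real.exp θ ≤ Real.exp θ' := Real.exp_le_exp.2 hθ
  have he2 : Real.exp θ / 2 ^ U ≤ Real.exp θ' / 2 ^ U :=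
    div_le_div_of_nonneg_right he (by positivity)
  have hp := h.isLaw.nonneg
  have hδ : ∀ (x y : Fin c → ℝ) (δ : ℝ), (∀ i, |x i - y i| ≤ δ) →
      Real.exp θ * δ ≤ Real.exp θ' * δ := fun x y δ hd =>
    mul_le_mul_of_nonneg_right he ((abs_nonneg _).trans (hd i₀))
  exact
  { isLaw := h.isLaw
    d_pos := h.d_pos
    j_pos := h.j_pos
    m_ge := h.m_ge
    bk_β := h.bk_β
    g_β := h.g_β
    g_V := h.g_V
    bk_tm := h.bk_tm
    tm_g := h.tm_g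
    pT_le := h.pT_le
    ξT_vf := h.ξT_vf
    ξT_le := fun v x i => CB.mono84 (h.ξT_le v x i) he
    ξN_hom := h.ξN_hom
    ξN_le := fun v x => CB.mono84 (h.ξN_le v x) he
    d_time := h.d_time
    ξT_time := h.ξT_time
    ΘT_time := h.ΘT_time
    ΘT_pol := fun x i => by
      obtain ⟨P, h1, h2, h3⟩ := h.ΘT_pol x i
      exact ⟨P, h1, CB.mono84 h2 he, h3⟩
    FN_pol := fun x => by
      obtain ⟨P, h1, h2, h3⟩ := h.FN_pol x
      exact ⟨P, h1, CB.mono84 h2 he, h3⟩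
    ΘT_le := fun x z hz i => (h.ΘT_le x z hz i).trans he
    ΘT_lip := fun x z z' hz hz' δ hd i =>
      (h.ΘT_lip x z z' hz hz' δ hd i).trans (hδ z z' δ hd)
    ΘT_inv := fun x z z' hz hz' δ hd i =>
      (h.ΘT_inv x z z' hz hz' δ hd i).trans (hδ (ΘT x z) (ΘT x z') δ hd)
    FN_lip := fun x z z' hz hz' δ hd =>
      (h.FN_lip x z z' hz hz' δ hd).trans (hδ z z' δ hd)
    own := by
      refine (Pb_mono84 hp fun ω _ hc hc' => hc ?_).trans (h.own.trans hη)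
      exact ⟨fun i => (hc'.1 i).trans he2, hc'.2.trans he2⟩
    transport := by
      refine (P2_mono84 hp fun ω ω' hc hc' => hc fun z hz => ?_).trans (h.transport.trans hη)
      exact ⟨fun i => ((hc' z hz).1 i).trans he2, (hc' z hz).2.trans he2⟩
    timeInd := h.timeInd.trans hθ
    indep := h.indep.trans hθ }

end

open Pool.LIV84

/-- The numerical part. -/
theorem num_CntL (c D : ℕ) (C₀ a ρ : ℝ) (hc : 1 ≤ c) (hC₀ : 1 ≤ C₀) (ha : 0 < a) (hρ : 0 < ρ) :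
    ∃ U₀ : ℕ, ∀ (U P B₁ B₂ : ℕ) (τ : ℝ), U₀ ≤ U → P = ⌊ρ * U⌋₊ → P ≤ U → 0 ≤ τ →
      τ ≤ a * ρ * Real.log 2 / 16 → (B₁ : ℝ) ≤ C₀ * 2 ^ U + C₀ →
      (B₂ : ℝ) ≤ ((D : ℝ) + 1) ^ c * (Real.exp (τ * U) * C₀ ^ D) + Real.exp (τ * U) + 1 →
      ∃ M : ℝ, (2 * (B₁ : ℝ) + 1) ^ (c - 1) * (2 ^ (U - P) *
        (2 * Real.exp ((1 - a) * P * Real.log 2 + τ * U) * (2 * ((B₂ + 1 : ℕ) : ℝ) + 1))) ≤
          Real.exp M ∧ M ≤ c * (U * Real.log 2) - 3 / 4 * (a * ρ * Real.log 2 * U) := by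
  have hl2 : 0 < Real.log 2 := Real.log_pos (by norm_num)
  obtain ⟨C₃, hC₃⟩ : ∃ C₃ : ℝ, C₃ = 2 * ((D : ℝ) + 1) ^ c * C₀ ^ D + 7 := ⟨_, rfl⟩
  have hC₃0 : 0 < C₃ := by rw [hC₃]; positivity
  obtain ⟨C₄, hC₄⟩ : ∃ C₄ : ℝ, C₄ = (c : ℝ) * Real.log (5 * C₀) + Real.log 2 + Real.log C₃ +
    a * Real.log 2 := ⟨_, rfl⟩
  obtain ⟨U₀, hU₀⟩ := exists_nat_ge (8 * C₄ / (a * ρ * Real.log 2))
  refine ⟨U₀, ?_⟩
  intro U P B₁ B₂ τ hU hP hPU hτ hτ1 hB₁ hB₂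
  have hU0 : (0 : ℝ) ≤ U := Nat.cast_nonneg _
  have hcoef : 0 < a * ρ * Real.log 2 := by positivity
  have hUU : C₄ ≤ a * ρ * Real.log 2 * U / 8 := by
    have h1 : 8 * C₄ / (a * ρ * Real.log 2) ≤ U := hU₀.trans (by exact_mod_cast hU)
    rw [div_le_iff₀ hcoef] at h1
    linarith only [h1]
  have hP1 : ρ * U - 1 ≤ P := by
    have := (Nat.lt_floor_add_one (ρ * U)).le
    rw [← hP] at this
    linarith only [this]
  have h2U : (1 : ℝ) ≤ 2 ^ U := one_le_pow₀ (by norm_num)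
  have he1 : 1 ≤ Real.exp (τ * U) := Real.one_le_exp (by positivity)
  -- the factors
  have f1 : 2 * (B₁ : ℝ) + 1 ≤ 5 * C₀ * 2 ^ U := by nlinarith only [hB₁, h2U, hC₀]
  have f2 : 2 * ((B₂ + 1 : ℕ) : ℝ) + 1 ≤ C₃ * Real.exp (τ * U) := by
    push_cast
    rw [hC₃]
    nlinarith only [hB₂, he1]
  have hf1 : (2 * (B₁ : ℝ) + 1) ^ (c - 1) ≤ (5 * C₀ * 2 ^ U) ^ (c - 1) :=
    pow_le_pow_left₀ (by positivity) f1 _
  refine ⟨((c - 1 : ℕ) : ℝ) * (Real.log (5 * C₀) + U * Real.log 2) + (((U - P : ℕ) : ℝ) * Real.log 2 +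
    (Real.log 2 + ((1 - a) * P * Real.log 2 + τ * U) + (Real.log C₃ + τ * U))), ?_, ?_⟩
  · obtain ⟨X, hX⟩ : ∃ X : ℝ, X = (1 - a) * P * Real.log 2 + τ * U := ⟨_, rfl⟩
    rw [← hX]
    have e1 : Real.exp (((c - 1 : ℕ) : ℝ) * (Real.log (5 * C₀) + U * Real.log 2)) =
        (5 * C₀ * 2 ^ U) ^ (c - 1) := by
      rw [Real.exp_nat_mul, Real.exp_add, Real.exp_log (by positivity), Real.exp_nat_mul,
        Real.exp_log (by norm_num)]
    have e2 : Real.exp (((U - P : ℕ) : ℝ) * Real.log 2) = 2 ^ (U - P) := by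
      rw [Real.exp_nat_mul, Real.exp_log (by norm_num)]
    rw [Real.exp_add, e1, Real.exp_add, e2, Real.exp_add, Real.exp_add (Real.log 2),
      Real.exp_log (by norm_num : (0 : ℝ) < 2), Real.exp_add (Real.log C₃), Real.exp_log hC₃0]
    refine mul_le_mul hf1 (mul_le_mul_of_nonneg_left ?_ (by positivity)) (by positivity)
      (by positivity)
    exact mul_le_mul_of_nonneg_left f2 (by positivity)
  · have g1 : ((c - 1 : ℕ) : ℝ) = c - 1 := by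
      rw [Nat.cast_sub hc, Nat.cast_one]
    have g2 : ((U - P : ℕ) : ℝ) = U - P := Nat.cast_sub hPU
    rw [g1, g2]
    have g3 : τ * U ≤ a * ρ * Real.log 2 * U / 16 := by
      have := mul_le_mul_of_nonneg_right hτ1 hU0
      linarith only [this]
    have g4 : a * Real.log 2 * (ρ * U - 1) ≤ a * Real.log 2 * P :=
      mul_le_mul_of_nonneg_left hP1 (by positivity)
    have g5 : 0 ≤ Real.log (5 * C₀) := Real.log_nonneg (by linarith only [hC₀])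
    rw [hC₄] at hUU
    nlinarith only [hUU, g3, g4, g5]

/-- **(A) COUNT, live times**, from the fullness of the position. -/
theorem cntL_of (hF : LFulEStmt) : CntLStmt := by
  classical
  intro c j D N d i₀ C₀ a ρ η hN hC₀ ha hρ hρ1 hη
  have hl2 : 0 < Real.log 2 := Real.log_pos (by norm_num)
  have hN0 : (0 : ℝ) < N := by exact_mod_cast hN
  have hc : 1 ≤ c := by
    have := i₀.2
    omega
  have hc0 : (0 : ℝ) < c := by exact_mod_cast hc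
  obtain ⟨η₁, hη₁⟩ : ∃ η₁ : ℝ, η₁ = η / 2 / (8 * (N : ℝ) ^ (c + 2)) := ⟨_, rfl⟩
  obtain ⟨η₂, hη₂⟩ : ∃ η₂ : ℝ, η₂ = η * a * ρ / (16 * N * c) := ⟨_, rfl⟩
  have hη₁0 : 0 < η₁ := by rw [hη₁]; positivity
  have hη₂0 : 0 < η₂ := by rw [hη₂]; positivity
  obtain ⟨ε, hε⟩ : ∃ ε : ℝ, ε = η * a * ρ / (8 * c) := ⟨_, rfl⟩
  have hε0 : 0 < ε := by rw [hε]; positivity
  refine ⟨min η₁ η₂, lt_min hη₁0 hη₂0, ?_⟩
  intro k b hk hb
  obtain ⟨κF, τF, hκF, hτF, UF, hFul⟩ := hF c j D N k d i₀ C₀ b ε hN hC₀ hb hε0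
  obtain ⟨κ, ρ', η₁', hκ, hρ'0, hρ'1, _, hη₁', hmin⟩ := minL c j N d κF (η / 2) hN hκF (half_pos hη)
  obtain ⟨τm, hτm, Um, hMin⟩ := hmin k b hk hb
  obtain ⟨UC, hNum⟩ := num_CntL c D C₀ a ρ hc hC₀ ha hρ
  obtain ⟨τ, hτ⟩ : ∃ τ : ℝ, τ = min (min τF τm) (a * ρ * Real.log 2 / 16) := ⟨_, rfl⟩
  have hτ0 : 0 < τ := by rw [hτ]; exact lt_min (lt_min hτF hτm) (by positivity)
  have hτF' : τ ≤ τF := by rw [hτ]; exact (min_le_left _ _).trans (min_le_left _ _)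
  have hτm' : τ ≤ τm := by rw [hτ]; exact (min_le_left _ _).trans (min_le_right _ _)
  have hτC : τ ≤ a * ρ * Real.log 2 / 16 := by rw [hτ]; exact min_le_right _ _
  obtain ⟨U₁, hU₁⟩ := exists_nat_ge ((C₀ + 1) / τF)
  refine ⟨κ, ρ', τ, hκ, hρ'0, hρ'1, hτ0, max (max UF Um) (max (max UC U₁) 1), ?_⟩
  intro U m hU hm Ω G B 𝔅 𝒱 _ p g bk β V tm pT pN ΘT FN ξT ξN Dd yc hW hD hs1 hs2 hyc hcnt
  have hUF : UF ≤ U := ((le_max_left _ _).trans (le_max_left _ _)).trans hU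
  have hUm : Um ≤ U := ((le_max_right _ _).trans (le_max_left _ _)).trans hU
  have hUC : UC ≤ U :=
    (((le_max_left _ _).trans (le_max_left _ _)).trans (le_max_right _ _)).trans hU
  have hU1 : (U₁ : ℝ) ≤ U := by
    exact_mod_cast (((le_max_right _ _).trans (le_max_left _ _)).trans (le_max_right _ _)).trans hU
  have hU5 : (1 : ℝ) ≤ U := by
    exact_mod_cast ((le_max_right _ _).trans (le_max_right _ _)).trans hU
  have hU0 : (0 : ℝ) < U := by linarith only [hU5]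
  have hp := hW.isLaw
  have hp0 := hp.nonneg
  by_contra hflt
  -- the chain
  obtain ⟨W, _, q, z, hMC⟩ := Pool.Agent.H67.BFL.mch_thm Ω (G ⊕ B) p (alt g bk) (2 * N - 1) hp
  have hq := hMC.isLaw
  have hq0 := hq.nonneg
  have hW' := hW.mono84 (mul_le_mul_of_nonneg_right hτF' hU0.le) hτF'
  obtain ⟨A, hA1, hA2, hA3⟩ := hFul U m hUF hm Ω G B 𝔅 𝒱 p g bk β V tm pT pN ΘT FN ξT ξN Dd hW' hD
    W q z hMC
  have hs2' : ∑ i ∈ range ⌊ρ' * U⌋₊, Pr p (Dd i) ≤ η₁' * ⌊ρ' * U⌋₊ := by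
    refine hs2.trans (mul_le_mul_of_nonneg_right ?_ (Nat.cast_nonneg _))
    rw [hη₁', ← hη₁]
    exact min_le_left _ _
  have hmn := hMin τ hτm' U m hUm i₀ D C₀ Ω G B 𝔅 𝒱 p g bk β V tm pT pN ΘT FN ξT ξN Dd hW hD hs2'
    W q z hMC
  -- the event `A` is not small
  have hPA : η / 2 ≤ Pr q A := by
    have h1 : Pb q (fun w => Flat d j (lgT β V ξT N z w) (lgN β V ξN N z w)
        (Real.exp (-(κ * U)))) < 1 - η := by
      by_contra h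
      push Not at h
      exact hflt ⟨W, inferInstance, q, z, hMC, h⟩
    have h2 : (1 : ℝ) ≤ Pb q (fun w => (Flat d j (lgT β V ξT N z w) (lgN β V ξN N z w)
        (Real.exp (-(κ * U))) ∨ (¬ Flat d j (lgT β V ξT N z w) (lgN β V ξN N z w)
        (Real.exp (-(κ * U))) ∧ ∀ e : Fin (c + 1) → Fin N,
            |eval (len tm m N z w) (minA d j (lgT β V ξT N z w)
              (lgN β V ξN N z w) e)| < Real.exp (-(κF * U)))) ∨ w ∈ A) := by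
      have h3 : (1 : ℝ) = Pb q (fun _ => True) := by
        unfold Pb
        simp [hq.sum_one]
      rw [h3]
      refine Pb_mono84 hq0 fun w hw _ => ?_
      by_cases hfl : Flat d j (lgT β V ξT N z w) (lgN β V ξN N z w) (Real.exp (-(κ * U)))
      · exact Or.inl (Or.inl hfl)
      · by_cases hsm : ∀ e : Fin (c + 1) → Fin N, |eval (len tm m N z w)
            (minA d j (lgT β V ξT N z w) (lgN β V ξN N z w) e)| < Real.exp (-(κF * U))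
        · exact Or.inl (Or.inr ⟨hfl, hsm⟩)
        · push Not at hsm
          exact Or.inr (hA2 w hw hsm)
    have h3 := (h2.trans (Pb_or84 hq0 _ _)).trans (add_le_add (Pb_or84 hq0 _ _) le_rfl)
    have h4 : Pb q (fun w => w ∈ A) = Pr q A := by
      rw [Pr_sum84]
      unfold Pb
      exact Finset.sum_congr rfl fun w _ => by congr
    rw [h4] at h3
    linarith only [h1, h3, hmn]
  -- the position
  obtain ⟨Ow, hOw⟩ : ∃ Ow : Ω → Prop, Ow = fun ω =>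
    (∀ i, |ΘT (bk ω) (pT ω) i| ≤ Real.exp (τ * U) / 2 ^ U) ∧
    |pN ω - FN (bk ω) (pT ω)| ≤ Real.exp (τ * U) / 2 ^ U := ⟨_, rfl⟩
  have hown : Pb p (fun ω => ¬ Ow ω) ≤ τ := by rw [hOw]; exact hW.own
  have h2U : (1 : ℝ) ≤ 2 ^ U := one_le_pow₀ (by norm_num)
  have hbig : C₀ + 1 ≤ Real.exp (τF * U) := by
    have h1 := hU₁.trans hU1
    rw [div_le_iff₀ hτF] at h1
    linarith only [h1, Real.add_one_le_exp (τF * U)]
  have hlow := hA3 (fun w => Yp i₀ U pN Ow yc (z (2 * N - 1) w)) (by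
    have h1 : Pb q (fun w => ¬ Ow (z (2 * N - 1) w)) = Pb p (fun ω => ¬ Ow ω) :=
      marg_pb (hMC.marg _ le_rfl) (fun ω => ¬ Ow ω)
    refine le_trans (Pb_mono84 hq0 ?_) ((le_of_eq h1).trans (hown.trans hτF'))
    intro w hw hc' hO
    apply hc'
    intro i
    have hpw := (hMC.marg (2 * N - 1) le_rfl).pos hq0 hw
    unfold Yp pos
    by_cases hi : i = i₀
    · rw [hi, Function.update_self, Function.update_self, if_pos hO]
      have h2 := Int.floor_le ((2 : ℝ) ^ U * pN (z (2 * N - 1) w))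
      have h3 := Int.lt_floor_add_one ((2 : ℝ) ^ U * pN (z (2 * N - 1) w))
      rw [abs_le]
      constructor
      · linarith only [h3, hbig, hC₀]
      · linarith only [h2, hbig, hC₀]
    · rw [Function.update_of_ne hi, Function.update_of_ne hi]
      have := hyc _ hpw i hi
      linarith only [this, hbig])
  -- the count
  obtain ⟨B₁, hB₁⟩ : ∃ B₁ : ℕ, B₁ = ⌊C₀ * 2 ^ U + C₀⌋₊ := ⟨_, rfl⟩
  obtain ⟨B₂, hB₂⟩ : ∃ B₂ : ℕ, B₂ = ⌈((D : ℝ) + 1) ^ c * (Real.exp (τ * U) * C₀ ^ D) +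
    Real.exp (τ * U)⌉₊ := ⟨_, rfl⟩
  have hPU : ⌊ρ * U⌋₊ ≤ U := by
    have h1 : (⌊ρ * U⌋₊ : ℝ) ≤ ρ * U := Nat.floor_le (by positivity)
    have h2 : ρ * U ≤ 1 * U := mul_le_mul_of_nonneg_right hρ1 hU0.le
    have h3 : (⌊ρ * U⌋₊ : ℝ) ≤ U := by linarith only [h1, h2]
    exact_mod_cast h3
  have hcount := count_Y (β := β) (tm := tm) hp i₀ hPU pN Ow yc B₁ B₂
    ((1 - a) * ⌊ρ * U⌋₊ * Real.log 2 + τ * U) (by
      intro ω hω i hi
      rw [hB₁]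
      have h1 := hyc ω hω i hi
      have h2 := hW.pT_le ω hω i
      have h3 : |(yc ω i : ℝ)| ≤ C₀ * 2 ^ U + C₀ := by
        have h4 : |(yc ω i : ℝ)| ≤ |(yc ω i : ℝ) - 2 ^ U * pT ω i| + |2 ^ U * pT ω i| := by
          have := abs_add_le ((yc ω i : ℝ) - 2 ^ U * pT ω i) (2 ^ U * pT ω i)
          rwa [sub_add_cancel] at this
        have h5 : |2 ^ U * pT ω i| ≤ 2 ^ U * C₀ := by
          rw [abs_mul, abs_of_pos (by positivity : (0 : ℝ) < 2 ^ U)]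
          exact mul_le_mul_of_nonneg_left h2 (by positivity)
        linarith only [h1, h4, h5]
      have h4 : (((yc ω i).natAbs : ℕ) : ℝ) ≤ C₀ * 2 ^ U + C₀ := by
        rw [Nat.cast_natAbs, Int.cast_abs]
        exact h3
      have h5 := Nat.le_floor h4
      rw [Int.abs_eq_natAbs]
      exact_mod_cast h5) (by
      intro ω hω hO
      rw [hOw] at hO
      obtain ⟨P, hP1, hP2, hP3⟩ := hW.FN_pol (bk ω)
      have h1 := eval_le84 hP1 (Real.exp_pos _).le hP2 hC₀ (hW.pT_le ω hω)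
      rw [← hP3] at h1
      have h2 : |pN ω| ≤ |pN ω - FN (bk ω) (pT ω)| + |FN (bk ω) (pT ω)| := by
        have := abs_add_le (pN ω - FN (bk ω) (pT ω)) (FN (bk ω) (pT ω))
        rwa [sub_add_cancel] at this
      have h3 : Real.exp (τ * U) / 2 ^ U ≤ Real.exp (τ * U) :=
        div_le_self (Real.exp_pos _).le h2U
      have h4 := Nat.le_ceil (((D : ℝ) + 1) ^ c * (Real.exp (τ * U) * C₀ ^ D) +
        Real.exp (τ * U))
      rw [← hB₂] at h4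
      linarith only [h1, h2, h3, h4, hO.2]) hcnt
  obtain ⟨M, hM1, hM2⟩ := hNum U ⌊ρ * U⌋₊ B₁ B₂ τ hUC rfl hPU hτ0.le hτC (by
    rw [hB₁]
    exact Nat.floor_le (by positivity)) (by
    rw [hB₂]
    exact (Nat.ceil_lt_add_one (by positivity)).le)
  have hup := upper_A (wi_of hW) hMC A hA1 (Yp i₀ U pN Ow yc) (M := M)
    (fun b t => (hcount b t).trans hM1)
  -- the contradiction
  have hS : ∑ i ∈ range U, Pr p (Dd i) ≤ η₂ * U :=
    hs1.trans (mul_le_mul_of_nonneg_right (min_le_right _ _) hU0.le)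
  have hPA0 : 0 ≤ Pr q A := by linarith only [hPA, hη]
  have h1 : Pr q A * M ≤ Pr q A * (c * (U * Real.log 2) - 3 / 4 * (a * ρ * Real.log 2 * U)) :=
    mul_le_mul_of_nonneg_left hM2 hPA0
  have h2 : η / 2 * (3 / 4 * (a * ρ * Real.log 2 * U)) ≤
      Pr q A * (3 / 4 * (a * ρ * Real.log 2 * U)) :=
    mul_le_mul_of_nonneg_right hPA (by positivity)
  have h3 : N * c * Real.log 2 * ∑ i ∈ range U, Pr p (Dd i) ≤ N * c * Real.log 2 * (η₂ * U) :=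
    mul_le_mul_of_nonneg_left hS (by positivity)
  have h4 : N * c * Real.log 2 * (η₂ * U) = 1 / 16 * (η * a * ρ * Real.log 2 * U) := by
    rw [hη₂]
    field_simp
  have h5 : ε * (c * (U * Real.log 2)) = 1 / 8 * (η * a * ρ * Real.log 2 * U) := by
    rw [hε]
    field_simp
  have h6 : 0 < η * a * ρ * Real.log 2 * U := by positivity
  have h7 := hlow.trans hup
  have h8 : (Pr q A - ε) * (c * (U * Real.log 2)) =
      Pr q A * (c * (U * Real.log 2)) - ε * (c * (U * Real.log 2)) := by ring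
  rw [h8, h5] at h7
  linarith only [h1, h2, h3, h4, h6, h7]

end Pool.LIV
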