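import Pool.Agent.H25.LIVE.Ver

/-!
# Small events and mutual information
-/

set_option autoImplicit false

namespace Pool.LIV84

open Finset Real
open Pool.Agent.H49.Ent Pool.Agent.H32.Dense Pool.STK Pool.KS3 Pool.OC.RS
open Pool.BFL (Pb P2 MC alt)

section

variable {W A B C : Type} [Fintype W] {q : W → ℝ}

open Classical in
/-- Change to the product law given `Γ`. -/
theorem key_sum (hq : ∀ w, 0 ≤ q w) (T : W → A) (y : W → B) (Γ : W → C) (h : C → B → A → ℝ)
    (hh : ∀ c b a, 0 ≤ h c b a) {K : ℝ}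
    (hK : ∀ w, 0 < q w → ∑ w', (if Γ w' = Γ w then q w' * h (Γ w) (y w) (T w') else 0) ≤
      K * law q Γ (Γ w)) :
    ∑ w, q w * (law q (fun w => (T w, Γ w)) (T w, Γ w) * law q (fun w => (y w, Γ w)) (y w, Γ w) /
      (law q (fun w => (T w, y w, Γ w)) (T w, y w, Γ w) * law q Γ (Γ w)) * h (Γ w) (y w) (T w)) ≤
      K * ∑ w, q w := by
  set F : W → W → W → ℝ := fun w1 w2 w => if (T w1 = T w ∧ Γ w1 = Γ w) ∧ (y w2 = y w ∧ Γ w2 = Γ w)
    then q w1 * q w2 * (h (Γ w2) (y w2) (T w1) / law q Γ (Γ w2)) *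
      (q w / law q (fun w => (T w, y w, Γ w)) (T w1, y w2, Γ w2)) else 0 with hF
  have e1 : ∀ w, q w * (law q (fun w => (T w, Γ w)) (T w, Γ w) *
      law q (fun w => (y w, Γ w)) (y w, Γ w) /
      (law q (fun w => (T w, y w, Γ w)) (T w, y w, Γ w) * law q Γ (Γ w)) * h (Γ w) (y w) (T w)) =
      ∑ w1, ∑ w2, F w1 w2 w := by
    intro w
    have hXY : law q (fun w => (T w, Γ w)) (T w, Γ w) * law q (fun w => (y w, Γ w)) (y w, Γ w) =
        ∑ w1, ∑ w2, (if (T w1 = T w ∧ Γ w1 = Γ w) ∧ (y w2 = y w ∧ Γ w2 = Γ w) then q w1 * q w2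
          else 0) := by
      unfold law
      rw [Finset.sum_mul_sum]
      refine Finset.sum_congr rfl fun w1 _ => Finset.sum_congr rfl fun w2 _ => ?_
      simp only [Prod.mk.injEq]
      by_cases h1 : T w1 = T w ∧ Γ w1 = Γ w <;> by_cases h2 : y w2 = y w ∧ Γ w2 = Γ w <;>
        simp [h1, h2]
    have halg : ∀ x y z t u : ℝ, x * (y / (z * t) * u) = y * (x * (u / t) * (1 / z)) := by
      intro x y z t u
      rw [div_eq_mul_inv, mul_inv, one_div, div_eq_mul_inv]
      ring
    rw [hXY, halg, Finset.sum_mul]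
    refine Finset.sum_congr rfl fun w1 _ => ?_
    rw [Finset.sum_mul]
    refine Finset.sum_congr rfl fun w2 _ => ?_
    simp only [hF]
    by_cases hc : (T w1 = T w ∧ Γ w1 = Γ w) ∧ (y w2 = y w ∧ Γ w2 = Γ w)
    · rw [if_pos hc, if_pos hc, hc.1.1, hc.2.1, hc.2.2]
      ring
    · rw [if_neg hc, if_neg hc, zero_mul]
  rw [Finset.sum_congr rfl fun w _ => e1 w]
  have e2 : ∀ w1 w2, ∑ w, F w1 w2 w ≤ if Γ w1 = Γ w2 then
      q w1 * q w2 * (h (Γ w2) (y w2) (T w1) / law q Γ (Γ w2)) else 0 := by
    intro w1 w2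
    by_cases hΓ : Γ w1 = Γ w2
    · rw [if_pos hΓ]
      have hc0 : 0 ≤ q w1 * q w2 * (h (Γ w2) (y w2) (T w1) / law q Γ (Γ w2)) :=
        mul_nonneg (mul_nonneg (hq _) (hq _)) (div_nonneg (hh _ _ _) (law_nonneg hq _ _))
      have e3 : ∑ w, F w1 w2 w = q w1 * q w2 * (h (Γ w2) (y w2) (T w1) / law q Γ (Γ w2)) *
          (law q (fun w => (T w, y w, Γ w)) (T w1, y w2, Γ w2) /
            law q (fun w => (T w, y w, Γ w)) (T w1, y w2, Γ w2)) := by
        conv_rhs => rw [show law q (fun w => (T w, y w, Γ w)) (T w1, y w2, Γ w2) /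
            law q (fun w => (T w, y w, Γ w)) (T w1, y w2, Γ w2) =
            ∑ w, (if (T w, y w, Γ w) = (T w1, y w2, Γ w2) then q w else 0) /
            law q (fun w => (T w, y w, Γ w)) (T w1, y w2, Γ w2) by
          rw [← Finset.sum_div]
          have : law q (fun w => (T w, y w, Γ w)) (T w1, y w2, Γ w2) =
              ∑ w, (if (T w, y w, Γ w) = (T w1, y w2, Γ w2) then q w else 0) := by
            unfold law
            exact Finset.sum_congr rfl fun w _ => by congr
          rw [← this]]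
        rw [Finset.mul_sum]
        refine Finset.sum_congr rfl fun w _ => ?_
        simp only [hF]
        by_cases hc : (T w, y w, Γ w) = (T w1, y w2, Γ w2)
        · rw [if_pos hc]
          simp only [Prod.mk.injEq] at hc
          rw [if_pos ⟨⟨hc.1.symm, hΓ.trans hc.2.2.symm⟩, hc.2.1.symm, hc.2.2.symm⟩]
        · rw [if_neg hc, if_neg, zero_div, mul_zero]
          rintro ⟨⟨a, b⟩, c, d⟩
          apply hc
          rw [a, c, d]
      rw [e3]
      exact (mul_le_mul_of_nonneg_left (div_self_le_one _) hc0).trans_eq (mul_one _)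
    · rw [if_neg hΓ]
      refine le_of_eq (Finset.sum_eq_zero fun w _ => ?_)
      simp only [hF]
      rw [if_neg]
      rintro ⟨⟨_, a⟩, _, b⟩
      exact hΓ (a.trans b.symm)
  calc ∑ w, ∑ w1, ∑ w2, F w1 w2 w = ∑ w1, ∑ w2, ∑ w, F w1 w2 w := by
        rw [Finset.sum_comm]
        refine Finset.sum_congr rfl fun w1 _ => ?_
        rw [Finset.sum_comm]
    _ ≤ ∑ w1, ∑ w2, (if Γ w1 = Γ w2 then
        q w1 * q w2 * (h (Γ w2) (y w2) (T w1) / law q Γ (Γ w2)) else 0) :=
      Finset.sum_le_sum fun w1 _ => Finset.sum_le_sum fun w2 _ => e2 w1 w2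
    _ = ∑ w2, q w2 / law q Γ (Γ w2) *
        ∑ w1, (if Γ w1 = Γ w2 then q w1 * h (Γ w2) (y w2) (T w1) else 0) := by
      rw [Finset.sum_comm]
      refine Finset.sum_congr rfl fun w2 _ => ?_
      rw [Finset.mul_sum]
      refine Finset.sum_congr rfl fun w1 _ => ?_
      split_ifs
      · ring
      · rw [mul_zero]
    _ ≤ ∑ w2, K * q w2 := by
      refine Finset.sum_le_sum fun w2 _ => ?_
      by_cases h0 : q w2 = 0
      · rw [h0, zero_div, zero_mul, mul_zero]
      · have hpos : 0 < q w2 := lt_of_le_of_ne (hq w2) (Ne.symm h0)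
        have hl := law_pos hq Γ hpos
        calc q w2 / law q Γ (Γ w2) *
              ∑ w1, (if Γ w1 = Γ w2 then q w1 * h (Γ w2) (y w2) (T w1) else 0)
            ≤ q w2 / law q Γ (Γ w2) * (K * law q Γ (Γ w2)) :=
              mul_le_mul_of_nonneg_left (hK w2 hpos) (by positivity)
          _ = K * q w2 := by field_simp
    _ = K * ∑ w, q w := by rw [Finset.mul_sum]

open Classical in
/-- **Small events.** An event which is small given `Γ` for the product law is small for the law, if
the information is small. -/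
theorem dv (hq : IsLaw q) (T : W → A) (y : W → B) (Γ : W → C) (S : C → B → A → Prop) {L θ : ℝ}
    (hS' : ∀ w, 0 < q w → Pb q (fun w' => Γ w' = Γ w ∧ S (Γ w) (y w) (T w')) ≤
      Real.exp (-L) * law q Γ (Γ w))
    (hmi : mi q T y Γ ≤ θ) : L * Pb q (fun w => S (Γ w) (y w) (T w)) ≤ θ + Real.log 2 := by
  have hq0 := hq.nonneg
  have hS : ∀ w, 0 < q w → ∑ w', (if Γ w' = Γ w ∧ S (Γ w) (y w) (T w') then q w' else 0) ≤
      Real.exp (-L) * law q Γ (Γ w) := by
    intro w hw
    refine le_trans (le_of_eq ?_) (hS' w hw)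
    unfold Pb
    exact Finset.sum_congr rfl fun w' _ => by congr
  set h : C → B → A → ℝ := fun c b a => if S c b a then Real.exp L else 1 with hh
  have h0 : ∀ c b a, 0 < h c b a := by
    intro c b a
    simp only [hh]
    split_ifs
    · exact Real.exp_pos _
    · exact one_pos
  have h1 := key_sum hq0 T y Γ h (fun c b a => (h0 c b a).le) (K := 2) (by
    intro w hw
    calc ∑ w', (if Γ w' = Γ w then q w' * h (Γ w) (y w) (T w') else 0)
        ≤ ∑ w', (Real.exp L * (if Γ w' = Γ w ∧ S (Γ w) (y w) (T w') then q w' else 0) +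
          (if Γ w' = Γ w then q w' else 0)) := by
          refine Finset.sum_le_sum fun w' _ => ?_
          by_cases a : Γ w' = Γ w
          · by_cases b : S (Γ w) (y w) (T w')
            · rw [if_pos a, if_pos ⟨a, b⟩, if_pos a]
              simp only [hh]
              rw [if_pos b]
              linarith [hq0 w']
            · rw [if_pos a, if_neg (fun k => b k.2), if_pos a]
              simp only [hh]
              rw [if_neg b]
              linarith [hq0 w']
          · rw [if_neg a, if_neg (fun k => a k.1), if_neg a]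
            simp
      _ = Real.exp L * ∑ w', (if Γ w' = Γ w ∧ S (Γ w) (y w) (T w') then q w' else 0) +
          law q Γ (Γ w) := by
          rw [Finset.sum_add_distrib, ← Finset.mul_sum]
          rfl
      _ ≤ Real.exp L * (Real.exp (-L) * law q Γ (Γ w)) + law q Γ (Γ w) := by
          have := mul_le_mul_of_nonneg_left (hS w hw) (Real.exp_pos L).le
          linarith
      _ = 2 * law q Γ (Γ w) := by
          rw [← mul_assoc, ← Real.exp_add, add_neg_cancel, Real.exp_zero]
          ring)
  rw [hq.sum_one] at h1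
  have h2 : ∀ w, q w * (Real.log (law q (fun w => (T w, Γ w)) (T w, Γ w)) +
      Real.log (law q (fun w => (y w, Γ w)) (y w, Γ w)) -
      Real.log (law q (fun w => (T w, y w, Γ w)) (T w, y w, Γ w)) - Real.log (law q Γ (Γ w)) +
      (if S (Γ w) (y w) (T w) then L else 0)) ≤
      q w * (law q (fun w => (T w, Γ w)) (T w, Γ w) * law q (fun w => (y w, Γ w)) (y w, Γ w) /
      (law q (fun w => (T w, y w, Γ w)) (T w, y w, Γ w) * law q Γ (Γ w)) * h (Γ w) (y w) (T w)) *
        (1 / 2) + q w * (Real.log 2 - 1) := by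
    intro w
    by_cases hw0 : q w = 0
    · simp [hw0]
    have hw : 0 < q w := lt_of_le_of_ne (hq0 w) (Ne.symm hw0)
    have a1 := law_pos hq0 (fun w => (T w, Γ w)) hw
    have a2 := law_pos hq0 (fun w => (y w, Γ w)) hw
    have a3 := law_pos hq0 (fun w => (T w, y w, Γ w)) hw
    have a4 := law_pos hq0 Γ hw
    have a5 := h0 (Γ w) (y w) (T w)
    set x1 := law q (fun w => (T w, Γ w)) (T w, Γ w)
    set x2 := law q (fun w => (y w, Γ w)) (y w, Γ w)
    set x3 := law q (fun w => (T w, y w, Γ w)) (T w, y w, Γ w)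
    set x4 := law q Γ (Γ w)
    set x5 := h (Γ w) (y w) (T w) with hx5
    have e5 : (if S (Γ w) (y w) (T w) then L else 0) = Real.log x5 := by
      rw [hx5]
      simp only [hh]
      split_ifs
      · rw [Real.log_exp]
      · rw [Real.log_one]
    have h3 := Real.log_le_sub_one_of_pos (x := x1 * x2 / (x3 * x4) * x5 / 2) (by positivity)
    rw [Real.log_div (by positivity) (by norm_num), Real.log_mul (by positivity) (by positivity),
      Real.log_div (by positivity) (by positivity), Real.log_mul (by positivity) (by positivity),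
      Real.log_mul (by positivity) (by positivity)] at h3
    have h4 := mul_le_mul_of_nonneg_left h3 hw.le
    rw [e5]
    have h5 : q w * (x1 * x2 / (x3 * x4) * x5) * (1 / 2) + q w * (Real.log 2 - 1) =
        q w * (x1 * x2 / (x3 * x4) * x5 / 2 - 1) + q w * Real.log 2 := by ring
    rw [h5]
    linarith [h4]
  have h3 := Finset.sum_le_sum (fun w (_ : w ∈ Finset.univ) => h2 w)
  rw [Finset.sum_add_distrib, ← Finset.sum_mul, ← Finset.sum_mul, hq.sum_one] at h3
  have h4 : ∑ w, q w * (Real.log (law q (fun w => (T w, Γ w)) (T w, Γ w)) +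
      Real.log (law q (fun w => (y w, Γ w)) (y w, Γ w)) -
      Real.log (law q (fun w => (T w, y w, Γ w)) (T w, y w, Γ w)) - Real.log (law q Γ (Γ w)) +
      (if S (Γ w) (y w) (T w) then L else 0)) =
      - mi q T y Γ + L * Pb q (fun w => S (Γ w) (y w) (T w)) := by
    rw [mi_eq hq0]
    unfold CH H Pb
    simp only [mul_add, mul_sub, Finset.sum_add_distrib, Finset.sum_sub_distrib]
    have e1 : ∑ w, q w * (if S (Γ w) (y w) (T w) then L else 0) =
        L * ∑ w, (if S (Γ w) (y w) (T w) then q w else 0) := by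
      rw [Finset.mul_sum]
      refine Finset.sum_congr rfl fun w _ => ?_
      split_ifs <;> ring
    rw [e1]
    ring
  rw [h4] at h3
  linarith

end

end Pool.LIV84
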