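import Pool.Agent.H84.LIV.Leg
import Pool.Agent.H84.STAT.Cb

/-!
# Live times: the event of one leg
-/

set_option autoImplicit false

namespace Pool.LIV84

open Finset Real
open Pool.Agent.H49.Ent Pool.Agent.H32.Dense Pool.STK Pool.KS3 Pool.OC.RS
open Pool.BFL (Pb P2 MC alt Pl)
open Pool.KAF (Pr)
open Pool.LIV
open Pool.STAT (len)
open Pool.STAT84

/-! ### Polynomials of one variable -/

/-- The polynomial of the variable `a`: the variables before `a` are `s`, the ones after are `x`. -/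
noncomputable def fib {N : ℕ} (P : Pl N) (a : ℕ) (s x : Fin N → ℝ) : Polynomial ℝ :=
  MvPolynomial.aeval (fun j : Fin N => if (j : ℕ) < a then Polynomial.C (s j) else
    if (j : ℕ) = a then Polynomial.X else Polynomial.C (x j)) P

/-- The mixed point. -/
def mx {N : ℕ} (a : ℕ) (s x : Fin N → ℝ) (j : Fin N) : ℝ := if (j : ℕ) < a then s j else x j

theorem fib_deg {N D : ℕ} {P : Pl N} (hP : P.totalDegree ≤ D) (a : ℕ) (s x : Fin N → ℝ) :
    (fib P a s x).natDegree ≤ D := by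
  have := MvPolynomial.aeval_natDegree_le (m := D) (n := 1) P hP
    (fun j : Fin N => if (j : ℕ) < a then Polynomial.C (s j) else
    if (j : ℕ) = a then Polynomial.X else Polynomial.C (x j)) (by
      intro j
      split_ifs
      · simp
      · simp
      · simp)
  simpa [fib] using this

theorem fib_eval {N : ℕ} (P : Pl N) (a : ℕ) (s x : Fin N → ℝ) (t : ℝ) :
    (fib P a s x).eval t = MvPolynomial.eval
      (fun j : Fin N => if (j : ℕ) < a then s j else if (j : ℕ) = a then t else x j) P := by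
  unfold fib
  induction P using MvPolynomial.induction_on with
  | C c => simp
  | add p q hp hq => simp only [map_add, Polynomial.eval_add, hp, hq]
  | mul_X p i hp =>
    simp only [map_mul, Polynomial.eval_mul, hp, MvPolynomial.aeval_X, MvPolynomial.eval_X]
    congr 1
    split_ifs <;> simp

theorem fib_at {N : ℕ} (P : Pl N) {a : ℕ} (ha : a < N) (s x : Fin N → ℝ) :
    (fib P a s x).eval (x ⟨a, ha⟩) = MvPolynomial.eval (mx a s x) P := by
  rw [fib_eval]
  congr 2
  funext j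
  unfold mx
  by_cases h1 : (j : ℕ) < a
  · rw [if_pos h1, if_pos h1]
  · rw [if_neg h1, if_neg h1]
    by_cases h2 : (j : ℕ) = a
    · rw [if_pos h2]
      congr 1
      exact Fin.ext h2.symm
    · rw [if_neg h2]

theorem fib_next {N : ℕ} (P : Pl N) {a : ℕ} (ha : a < N) (s x : Fin N → ℝ) :
    (fib P a s x).eval (s ⟨a, ha⟩) = MvPolynomial.eval (mx (a + 1) s x) P := by
  rw [fib_eval]
  congr 2
  funext j
  unfold mx
  by_cases h1 : (j : ℕ) < a
  · rw [if_pos h1, if_pos (by omega)]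
  · rw [if_neg h1]
    by_cases h2 : (j : ℕ) = a
    · rw [if_pos h2, if_pos (by omega)]
      congr 1
      exact Fin.ext h2.symm
    · rw [if_neg h2, if_neg (by omega)]

theorem fib_trunc {N : ℕ} (P : Pl N) (a : ℕ) (s x : Fin N → ℝ) :
    fib P a (fun j => if (j : ℕ) < a then s j else 0) x = fib P a s x := by
  unfold fib
  congr 2
  funext j
  by_cases h1 : (j : ℕ) < a
  · rw [if_pos h1, if_pos h1]
    simp only
    rw [if_pos h1]
  · rw [if_neg h1, if_neg h1]

section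

variable {Ω G B W 𝔅 𝒱 : Type} [Fintype Ω] [Fintype W] {p : Ω → ℝ} {g : Ω → G} {bk : Ω → B}
  {β : Ω → 𝔅} {V : Ω → 𝒱} {tm : Ω → ℤ} {N : ℕ} {q : W → ℝ} {z : ℕ → W → Ω}

theorem marg_pb {pr : W → Ω} (h : Marg q p pr) (A : Ω → Prop) :
    Pb q (fun w => A (pr w)) = Pb p A := by
  classical
  unfold Pb
  have := h.ex (fun ω => if A ω then 1 else 0)
  unfold Ex at this
  have e1 : ∀ w, q w * (if A (pr w) then (1 : ℝ) else 0) = if A (pr w) then q w else 0 := by
    intro w; split_ifs <;> simp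
  have e2 : ∀ ω, p ω * (if A ω then (1 : ℝ) else 0) = if A ω then p ω else 0 := by
    intro w; split_ifs <;> simp
  simp_rw [e1, e2] at this
  refine Eq.trans ?_ (this.trans ?_)
  · exact Finset.sum_congr rfl fun w' _ => by congr
  · exact Finset.sum_congr rfl fun w' _ => by congr

/-- **The event of one leg**: the polynomial becomes small with the time of the leg `a`. -/
theorem leg_event {θ : ℝ} (hI : WI p g bk β V tm θ) (hθ : 0 ≤ θ) {m : ℕ}
    (htm : ∀ ω ω', g ω = g ω' → |tm ω' - tm ω| ≤ 2 ^ m)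
    (h : MC p (alt g bk) (2 * N - 1) q z) {a : ℕ} (ha : a < N) {D r : ℕ} (hr : r ≤ m)
    (P : (Fin N → 𝒱) → 𝔅 → Pl N) (hP : ∀ v b, (P v b).totalDegree ≤ D)
    (x : (Fin N → 𝒱) → 𝔅 → Fin N → ℝ) (hx : ∀ v b i, |x v b i| ≤ 1) {A δ ε L : ℝ} (hε : 0 ≤ ε)
    (hL : (2 * D + 1) * ε ≤ Real.exp (-L))
    (hA : ((D : ℝ) + 1) * (2 * 2 ^ r) ^ D * δ < A) :
    L * Pb q (fun w => A ≤ |MvPolynomial.eval (mx a (len tm m N z w)
        (x (fun j => V (z (2 * j) w)) (β (z 0 w)))) (P (fun j => V (z (2 * j) w)) (β (z 0 w)))| ∧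
      |MvPolynomial.eval (mx (a + 1) (len tm m N z w)
        (x (fun j => V (z (2 * j) w)) (β (z 0 w)))) (P (fun j => V (z (2 * j) w)) (β (z 0 w)))| ≤
        δ ∧ ms p g tm m r (z (2 * a + 1) w) ≤ ε * law p g (g (z (2 * a + 1) w))) ≤
      2 * N * θ + Real.log 2 := by
  classical
  have hq := h.isLaw
  have hq0 := hq.nonneg
  have hp0 := hI.isLaw.nonneg
  have hmg := h.marg (2 * a + 1) (by omega)
  set S : G → (Fin N → 𝒱) × (Fin N → ℝ) × ℤ × 𝔅 → ℤ → Prop := fun γ y t =>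
    |t - y.2.2.1| ≤ 2 ^ m ∧
    |(fib (P y.1 y.2.2.2) a y.2.1 (x y.1 y.2.2.2)).eval (((t - y.2.2.1 : ℤ) : ℝ) / 2 ^ m)| ≤ δ ∧
    A ≤ |(fib (P y.1 y.2.2.2) a y.2.1 (x y.1 y.2.2.2)).eval (x y.1 y.2.2.2 ⟨a, ha⟩)| ∧
    ∃ ω, 0 < p ω ∧ g ω = γ ∧ tm ω = t ∧ ms p g tm m r ω ≤ ε * law p g γ with hS
  have h1 := dv hq (fun w => tm (z (2 * a + 1) w)) (Yv β V tm m N a z)
    (fun w => g (z (2 * a + 1) w)) S (L := L) (θ := 2 * N * θ) (by
      intro w hw
      set y := Yv β V tm m N a z w with hy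
      set γ := g (z (2 * a + 1) w) with hγ
      have e1 := marg_pb hmg (fun ω => g ω = γ ∧ S γ y (tm ω))
      have e2 : law q (fun w => g (z (2 * a + 1) w)) γ = law p g γ := hmg.law g γ
      rw [e2]
      refine le_trans (le_of_eq e1) (le_trans (?_ : Pb p (fun ω => g ω = γ ∧ S γ y (tm ω)) ≤
        (2 * D + 1) * ε * law p g γ) ?_)
      · by_cases hbig : A ≤ |(fib (P y.1 y.2.2.2) a y.2.1 (x y.1 y.2.2.2)).eval
            (x y.1 y.2.2.2 ⟨a, ha⟩)|
        · exact mass_le hp0 D r hr (fib (P y.1 y.2.2.2) a y.2.1 (x y.1 y.2.2.2)) y.2.2.1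
            (x y.1 y.2.2.2 ⟨a, ha⟩) δ ε hε (fib_deg (hP _ _) _ _ _) (hx _ _ _)
            (lt_of_lt_of_le hA hbig) γ (S γ y) (fun t ht => ⟨ht.1, ht.2.1, ht.2.2.2⟩)
        · have : Pb p (fun ω => g ω = γ ∧ S γ y (tm ω)) = 0 := by
            unfold Pb
            exact Finset.sum_eq_zero fun ω _ => if_neg fun hc => hbig hc.2.2.2.1
          rw [this]
          exact mul_nonneg (mul_nonneg (by positivity) hε) (law_nonneg hp0 _ _)
      · exact mul_le_mul_of_nonneg_right hL (law_nonneg hp0 _ _)) (leg_mi hI hθ h ha m)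
  by_cases hL0 : 0 ≤ L
  · refine le_trans (mul_le_mul_of_nonneg_left (Pb_mono84 hq0 ?_) hL0) h1
    intro w hw hc
    have hg := same_g h hw ha
    have hlen : len tm m N z w ⟨a, ha⟩ =
        ((tm (z (2 * a + 1) w) - tm (z (2 * a) w) : ℤ) : ℝ) / 2 ^ m := rfl
    show S (g (z (2 * a + 1) w)) (Yv β V tm m N a z w) (tm (z (2 * a + 1) w))
    refine ⟨htm _ _ hg, ?_, ?_, z (2 * a + 1) w, hmg.pos hq0 hw, rfl, rfl, hc.2.2⟩
    · have e := hc.2.1
      rw [← fib_next _ ha, hlen] at e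
      have e2 : (Yv β V tm m N a z w).2.1 =
          fun j : Fin N => if (j : ℕ) < a then len tm m N z w j else 0 :=
        rfl
      rw [e2, fib_trunc]
      exact e
    · have e := hc.1
      rw [← fib_at _ ha] at e
      have e2 : (Yv β V tm m N a z w).2.1 =
          fun j : Fin N => if (j : ℕ) < a then len tm m N z w j else 0 :=
        rfl
      rw [e2, fib_trunc]
      exact e
  · push Not at hL0
    have h2 : 0 ≤ Pb q (fun w => A ≤ |MvPolynomial.eval (mx a (len tm m N z w)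
        (x (fun j => V (z (2 * j) w)) (β (z 0 w)))) (P (fun j => V (z (2 * j) w)) (β (z 0 w)))| ∧
      |MvPolynomial.eval (mx (a + 1) (len tm m N z w)
        (x (fun j => V (z (2 * j) w)) (β (z 0 w)))) (P (fun j => V (z (2 * j) w)) (β (z 0 w)))| ≤
        δ ∧ ms p g tm m r (z (2 * a + 1) w) ≤ ε * law p g (g (z (2 * a + 1) w))) := by
      unfold Pb
      exact Finset.sum_nonneg fun w _ => by split_ifs; exacts [hq0 w, le_rfl]
    have h3 : 0 ≤ 2 * N * θ + Real.log 2 := by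
      have := Real.log_nonneg (show (1 : ℝ) ≤ 2 by norm_num)
      positivity
    nlinarith

end

end Pool.LIV84
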