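import Pool.Agent.H84.LIV.Core

/-!
# Minors of a matrix with a row of ones
-/

set_option autoImplicit false

namespace Pool.LIV84

open Finset Matrix

/-- A determinant with a column of ones. -/
theorem det_ones {n : ℕ} (A : Matrix (Fin (n + 1)) (Fin (n + 1)) ℝ) (j₀ : Fin (n + 1))
    (h : ∀ k, A k j₀ = 1) :
    |det A| = |det (Matrix.of fun k j : Fin n =>
      A k.succ (j₀.succAbove j) - A 0 (j₀.succAbove j))| := by
  set B : Matrix (Fin (n + 1)) (Fin (n + 1)) ℝ :=
    Matrix.of fun k j => if k = 0 then A 0 j else A k j - A 0 j with hB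
  have h1 : det A = det B := by
    refine det_eq_of_forall_row_eq_smul_add_const (fun k => if k = 0 then 0 else 1) 0 (by simp) ?_
    intro k j
    simp only [hB, Matrix.of_apply]
    by_cases hk : k = 0
    · simp [hk]
    · simp [hk]
  rw [h1, Matrix.det_succ_column B j₀, Finset.sum_eq_single (0 : Fin (n + 1))]
  · have e1 : B 0 j₀ = 1 := by simp [hB, h 0]
    have e2 : B.submatrix (Fin.succAbove 0) j₀.succAbove = Matrix.of fun k j : Fin n =>
        A k.succ (j₀.succAbove j) - A 0 (j₀.succAbove j) := by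
      ext k j
      simp [hB, Fin.succ_ne_zero]
    rw [e1, e2, abs_mul, abs_mul, abs_pow, abs_neg, abs_one, one_pow, one_mul, one_mul]
  · intro k _ hk
    have e1 : B k j₀ = 0 := by simp [hB, hk, h]
    rw [e1]
    ring
  · intro hk
    exact absurd (Finset.mem_univ _) hk

/-- Consecutive differences. -/
def cdf {N n : ℕ} (v : Fin N → Fin n → ℝ) (l : Fin N) : Fin n → ℝ :=
  if h : (l : ℕ) = 0 then 0 else v l - v ⟨l - 1, by omega⟩

theorem cdf_sum {N n : ℕ} (v : Fin N → Fin n → ℝ) (a : Fin N) :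
    ∑ l, (if l ≤ a then (1 : ℝ) else 0) • cdf v l = v a - v ⟨0, by have := a.2; omega⟩ := by
  obtain ⟨V, hV⟩ : ∃ V : ℕ → Fin n → ℝ, V = fun l => if h : l < N then v ⟨l, h⟩ else 0 := ⟨_, rfl⟩
  have h1 : ∑ l, (if l ≤ a then (1 : ℝ) else 0) • cdf v l =
      ∑ l ∈ range N, (if l ≤ (a : ℕ) then (if l = 0 then 0 else V l - V (l - 1)) else 0) := by
    rw [← Fin.sum_univ_eq_sum_range (fun l => (if l ≤ (a : ℕ) then
      (if l = 0 then 0 else V l - V (l - 1)) else 0)) N]
    refine Finset.sum_congr rfl fun l _ => ?_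
    have e0 : (l ≤ a) ↔ ((l : ℕ) ≤ a) := Fin.le_def
    by_cases hl : l ≤ a
    · rw [if_pos hl, if_pos (e0.1 hl), one_smul]
      unfold cdf
      by_cases h0 : (l : ℕ) = 0
      · rw [dif_pos h0, if_pos h0]
      · rw [dif_neg h0, if_neg h0, hV]
        simp only
        rw [dif_pos l.2, dif_pos (show (l : ℕ) - 1 < N by have := l.2; omega)]
    · rw [if_neg hl, if_neg (fun h => hl (e0.2 h)), zero_smul]
  rw [h1, ← Finset.sum_filter]
  have h2 : (range N).filter (fun l => l ≤ (a : ℕ)) = range (a + 1) := by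
    ext l
    rw [Finset.mem_filter, mem_range, mem_range]
    have := a.2
    omega
  rw [h2]
  have h3 : ∀ m : ℕ, ∑ l ∈ range (m + 1), (if l = 0 then (0 : Fin n → ℝ) else V l - V (l - 1)) =
      V m - V 0 := by
    intro m
    induction m with
    | zero => simp
    | succ m ih =>
      rw [Finset.sum_range_succ, ih, if_neg (by omega), Nat.add_sub_cancel]
      abel
  rw [h3, hV]
  simp only
  rw [dif_pos a.2, dif_pos (show 0 < N by have := a.2; omega)]

/-- The determinant of differences is bounded by the determinants of consecutive differences. -/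
theorem det_cdf {N n : ℕ} (v : Fin N → Fin n → ℝ) (a b : Fin n → Fin N) :
    |det (Matrix.of fun k j : Fin n => v (a k) j - v (b k) j)| ≤
      ∑ f : Fin n → Fin N, |det (Matrix.of fun k j : Fin n => cdf v (f k) j)| := by
  have h1 : (Matrix.of fun k j : Fin n => v (a k) j - v (b k) j) =
      Matrix.of fun k : Fin n => ∑ l, ((if l ≤ a k then (1 : ℝ) else 0) -
        (if l ≤ b k then (1 : ℝ) else 0)) • cdf v l := by
    ext k j
    have e1 := cdf_sum v (a k)
    have e2 := cdf_sum v (b k)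
    have e3 : ∑ l, ((if l ≤ a k then (1 : ℝ) else 0) - (if l ≤ b k then (1 : ℝ) else 0)) •
        cdf v l = v (a k) - v (b k) := by
      simp_rw [sub_smul]
      rw [Finset.sum_sub_distrib, e1, e2]
      abel
    simp only [Matrix.of_apply]
    rw [e3]
    rfl
  have h2 : det (Matrix.of fun k : Fin n => ∑ l, ((if l ≤ a k then (1 : ℝ) else 0) -
        (if l ≤ b k then (1 : ℝ) else 0)) • cdf v l) =
      ∑ f : Fin n → Fin N, det (Matrix.of fun k : Fin n => ((if f k ≤ a k then (1 : ℝ) else 0) -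
        (if f k ≤ b k then (1 : ℝ) else 0)) • cdf v (f k)) :=
    (Matrix.detRowAlternating (R := ℝ) (n := Fin n)).toMultilinearMap.map_sum
      (fun k l => ((if l ≤ a k then (1 : ℝ) else 0) - (if l ≤ b k then (1 : ℝ) else 0)) • cdf v l)
  rw [h1, h2]
  refine (Finset.abs_sum_le_sum_abs _ _).trans (Finset.sum_le_sum fun f _ => ?_)
  have h3 : det (Matrix.of fun k : Fin n => ((if f k ≤ a k then (1 : ℝ) else 0) -
        (if f k ≤ b k then (1 : ℝ) else 0)) • cdf v (f k)) =
      (∏ k, ((if f k ≤ a k then (1 : ℝ) else 0) - (if f k ≤ b k then (1 : ℝ) else 0))) *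
        det (Matrix.of fun k : Fin n => cdf v (f k)) := by
    have := (Matrix.detRowAlternating (R := ℝ) (n := Fin n)).toMultilinearMap.map_smul_univ
      (fun k => ((if f k ≤ a k then (1 : ℝ) else 0) - (if f k ≤ b k then (1 : ℝ) else 0)))
      (fun k => cdf v (f k))
    exact this
  rw [h3, abs_mul, Finset.abs_prod]
  have h4 : ∏ k, |((if f k ≤ a k then (1 : ℝ) else 0) - (if f k ≤ b k then (1 : ℝ) else 0))| ≤
      1 := by
    refine Finset.prod_le_one (fun _ _ => abs_nonneg _) fun k _ => ?_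
    split_ifs <;> norm_num
  exact mul_le_of_le_one_left (abs_nonneg _) h4

open MvPolynomial in
/-- The time of the end point of a walk. -/
theorem wT_time {c : ℕ} {d : Fin c → ℕ} {i₀ : Fin c} (hd : d i₀ = 1) :
    ∀ (N : ℕ) (ξ : Fin N → Fin c → Pool.BFL.Pl c), (∀ a, ξ a i₀ = 1) →
      Pool.STAT.wT d N ξ i₀ = ∑ a, X a := by
  intro N
  induction N with
  | zero =>
    intro ξ _
    simp [Pool.STAT.wT]
  | succ N ih =>
    intro ξ hξ
    have h1 := ih (fun a => ξ a.succ) (fun a => hξ a.succ)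
    unfold Pool.STAT.wT
    rw [hd, Finset.sum_range_succ, Finset.sum_range_one, Fin.sum_univ_succ]
    have e1 : (Pool.STAT.lie (ξ 0)) (X i₀) = ξ 0 i₀ := by
      unfold Pool.STAT.lie
      rw [mkDerivation_X]
    simp only [Nat.factorial_zero, Nat.cast_one, pow_zero, Function.iterate_zero,
      id_eq, bind₁_X_right, Nat.factorial_one, pow_one, Function.iterate_one]
    rw [e1, hξ 0, h1, map_one, map_sum]
    simp only [rename_X, div_one, C_1, one_mul, mul_one]
    exact add_comm _ _

/-- The derivative of the position of the end point (space and height) in the length of the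
leg `a`. -/
noncomputable def dE {c N : ℕ} (d : Fin c → ℕ) (i₀ : Fin c) (j : ℕ)
    (ξ : Fin N → Fin c → Pool.BFL.Pl c) (b : Fin N → Pool.BFL.Pl c) (s : Fin N → ℝ) (a : Fin N)
    (i : Fin c) : ℝ :=
  if i = i₀ then MvPolynomial.eval s (MvPolynomial.pderiv a (Pool.STAT.wH d j N ξ b))
  else MvPolynomial.eval s (MvPolynomial.pderiv a (Pool.STAT.wT d N ξ i))

/-- **The minors and the consecutive differences.** -/
theorem minA_cdf {c N : ℕ} {d : Fin c → ℕ} {i₀ : Fin c} (j : ℕ) (hd : d i₀ = 1)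
    (ξ : Fin N → Fin c → Pool.BFL.Pl c) (b : Fin N → Pool.BFL.Pl c) (hξ : ∀ a, ξ a i₀ = 1)
    (s : Fin N → ℝ) (e : Fin (c + 1) → Fin N) :
    |MvPolynomial.eval s (Pool.STAT.minA d j ξ b e)| ≤
      ∑ f : Fin c → Fin N, |det (Matrix.of fun k i : Fin c => cdf (dE d i₀ j ξ b s) (f k) i)| := by
  set A : Matrix (Fin (c + 1)) (Fin (c + 1)) ℝ := Matrix.of fun k i =>
    MvPolynomial.eval s (MvPolynomial.pderiv (e k)
      ((Fin.snoc (Pool.STAT.wT d N ξ) (Pool.STAT.wH d j N ξ b) :
        Fin (c + 1) → Pool.BFL.Pl N) i)) with hA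
  have h1 : MvPolynomial.eval s (Pool.STAT.minA d j ξ b e) = det A := by
    unfold Pool.STAT.minA
    rw [← det_transpose A, RingHom.map_det]
    rfl
  set σ : Equiv.Perm (Fin (c + 1)) := Equiv.swap (Fin.castSucc i₀) (Fin.last c) with hσ
  have h2 : |det A| = |det (A.submatrix id σ)| := by
    rw [Matrix.det_permute', abs_mul]
    rcases Int.units_eq_one_or (Equiv.Perm.sign σ) with h | h <;> simp [h]
  have h3 : ∀ k, A.submatrix id σ k (Fin.last c) = 1 := by
    intro k
    have e1 : σ (Fin.last c) = Fin.castSucc i₀ := by rw [hσ, Equiv.swap_apply_right]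
    rw [Matrix.submatrix_apply, e1]
    simp only [hA, Matrix.of_apply, id_eq, Fin.snoc_castSucc]
    rw [wT_time hd N ξ hξ, map_sum, Finset.sum_eq_single (e k)]
    · rw [MvPolynomial.pderiv_X_self, map_one]
    · intro a _ ha
      rw [MvPolynomial.pderiv_X_of_ne ha]
    · intro h
      exact absurd (Finset.mem_univ _) h
  have h4 := det_ones (A.submatrix id σ) (Fin.last c) h3
  have h5 : (Matrix.of fun k j : Fin c => (A.submatrix id σ) k.succ ((Fin.last c).succAbove j) -
      (A.submatrix id σ) 0 ((Fin.last c).succAbove j)) =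
      Matrix.of fun k i : Fin c => dE d i₀ j ξ b s (e k.succ) i - dE d i₀ j ξ b s (e 0) i := by
    have e1 : ∀ (k : Fin (c + 1)) (i : Fin c), (A.submatrix id σ) k ((Fin.last c).succAbove i) =
        dE d i₀ j ξ b s (e k) i := by
      intro k i
      rw [Fin.succAbove_last, Matrix.submatrix_apply]
      unfold dE
      by_cases hi : i = i₀
      · rw [if_pos hi, hi, hσ, Equiv.swap_apply_left]
        simp only [hA, Matrix.of_apply, id_eq, Fin.snoc_last]
      · rw [if_neg hi, hσ, Equiv.swap_apply_of_ne_of_ne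
          (fun h => hi (Fin.castSucc_injective _ h)) (Fin.castSucc_lt_last i).ne]
        simp only [hA, Matrix.of_apply, id_eq, Fin.snoc_castSucc]
    ext k i
    simp only [Matrix.of_apply]
    rw [e1, e1]
  rw [h1, h2, h4, h5]
  exact det_cdf (dE d i₀ j ξ b s) (fun k => e k.succ) (fun _ => e 0)

/-- A minor which is not small gives consecutive differences whose determinant is not small. -/
theorem exists_cdf {c N : ℕ} {d : Fin c → ℕ} {i₀ : Fin c} (j : ℕ) (hd : d i₀ = 1)
    (ξ : Fin N → Fin c → Pool.BFL.Pl c) (b : Fin N → Pool.BFL.Pl c) (hξ : ∀ a, ξ a i₀ = 1)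
    (s : Fin N → ℝ) (e : Fin (c + 1) → Fin N) {κ : ℝ} (hκ : 0 < κ)
    (h : κ ≤ |MvPolynomial.eval s (Pool.STAT.minA d j ξ b e)|) :
    ∃ f : Fin c → Fin N, (∀ k, 1 ≤ (f k : ℕ)) ∧
      κ / (N : ℝ) ^ c ≤ |det (Matrix.of fun k i : Fin c => cdf (dE d i₀ j ξ b s) (f k) i)| := by
  classical
  have hN : 0 < N := by
    have := (e 0).2
    omega
  have hN0 : (0 : ℝ) < (N : ℝ) ^ c := by positivity
  have h1 := h.trans (minA_cdf j hd ξ b hξ s e)
  obtain ⟨f, hf⟩ : ∃ f : Fin c → Fin N, κ / (N : ℝ) ^ c ≤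
      |det (Matrix.of fun k i : Fin c => cdf (dE d i₀ j ξ b s) (f k) i)| := by
    by_contra hcon
    push Not at hcon
    have h2 : ∑ f : Fin c → Fin N,
        |det (Matrix.of fun k i : Fin c => cdf (dE d i₀ j ξ b s) (f k) i)| <
        ∑ _f : Fin c → Fin N, κ / (N : ℝ) ^ c :=
      Finset.sum_lt_sum_of_nonempty ⟨fun _ => ⟨0, hN⟩, Finset.mem_univ _⟩ fun f _ => hcon f
    rw [Finset.sum_const, Finset.card_univ, nsmul_eq_mul, Fintype.card_fun, Fintype.card_fin,
      Fintype.card_fin] at h2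
    push_cast at h2
    rw [mul_div_cancel₀ _ hN0.ne'] at h2
    linarith
  refine ⟨f, fun k => ?_, hf⟩
  by_contra hk
  have h0 : (f k : ℕ) = 0 := by omega
  have h2 : det (Matrix.of fun k i : Fin c => cdf (dE d i₀ j ξ b s) (f k) i) = 0 := by
    refine Matrix.det_eq_zero_of_row_eq_zero k fun i => ?_
    simp only [Matrix.of_apply]
    unfold cdf
    rw [dif_pos h0]
    rfl
  rw [h2, abs_zero] at hf
  have : 0 < κ / (N : ℝ) ^ c := by positivity
  linarith

end Pool.LIV84
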