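import Pool.Agent.H84.LIV.Ball

/-!
# Live times: one leg of the walk
-/

set_option autoImplicit false

namespace Pool.LIV84

open Finset Real
open Pool.Agent.H49.Ent Pool.Agent.H32.Dense Pool.STK Pool.KS3 Pool.OC.RS
open Pool.BFL (Pb P2 MC alt Pl)
open Pool.KAF (Pr)
open Pool.LIV
open Pool.STAT (len)

section

variable {Ω G B W 𝔅 𝒱 : Type} [Fintype Ω] [Fintype W] {p : Ω → ℝ} {g : Ω → G} {bk : Ω → B}
  {β : Ω → 𝔅} {V : Ω → 𝒱} {tm : Ω → ℤ} {N : ℕ} {q : W → ℝ} {z : ℕ → W → Ω}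

/-- The data of the leg `a`. -/
noncomputable def Yv (β : Ω → 𝔅) (V : Ω → 𝒱) (tm : Ω → ℤ) (m N a : ℕ) (z : ℕ → W → Ω) (w : W) :
    (Fin N → 𝒱) × (Fin N → ℝ) × ℤ × 𝔅 :=
  (fun j => V (z (2 * j) w), fun j => if (j : ℕ) < a then len tm m N z w j else 0,
    tm (z (2 * a) w), β (z 0 w))

/-- The past. -/
def Pa (n : ℕ) (z : ℕ → W → Ω) (w : W) (k : Fin (n + 1)) : Ω := z k w

/-- The data of the future. -/
def Fu (V : Ω → 𝒱) (tm : Ω → ℤ) (n r : ℕ) (z : ℕ → W → Ω) (w : W) (k : Fin r) : 𝒱 ⊕ ℤ :=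
  dat V tm (n + 1 + k) (z (n + 1 + k) w)

omit [Fintype Ω] [Fintype W] in
theorem Pa_eq {n : ℕ} {w w' : W} (h : Pa n z w = Pa n z w') {k : ℕ} (hk : k ≤ n) :
    z k w = z k w' := congrFun h ⟨k, by omega⟩

omit [Fintype Ω] [Fintype W] in
theorem Fu_eq {n r : ℕ} {w w' : W} (h : Fu V tm n r z w = Fu V tm n r z w') {k : ℕ}
    (hk : k < r) : dat V tm (n + 1 + k) (z (n + 1 + k) w) =
      dat V tm (n + 1 + k) (z (n + 1 + k) w') := congrFun h ⟨k, hk⟩

/-- The time is independent of the past given the line block. -/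
theorem leg_past (h : MC p (alt g bk) (2 * N - 1) q z) {a : ℕ} (ha : a < N) :
    mi q (fun w => tm (z (2 * a + 1) w)) (Pa (2 * a) z) (fun w => g (z (2 * a + 1) w)) = 0 := by
  have hq := h.isLaw.nonneg
  have h2 := (h.markov (2 * a) (by omega)).mono_left hq
    (A' := fun w => tm (z (2 * a + 1) w)) (by
      intro w w' _ _ e
      have e1 := congrFun (Prod.ext_iff.mp e).1 ⟨0, by omega⟩
      simp only [add_zero] at e1
      show tm (z (2 * a + 1) w) = tm (z (2 * a + 1) w')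
      rw [e1])
  have h3 : CI q (fun w => tm (z (2 * a + 1) w)) (Pa (2 * a) z) (fun w => g (z (2 * a + 1) w)) := by
    refine CI.congr hq (Z := fun w => alt g bk (2 * a) (z (2 * a) w)) h2 ?_ ?_
    · intro w w' hw hw' e
      simp only [alt_even (g := g) (bk := bk) (show 2 * a % 2 = 0 by omega)] at e
      show g (z (2 * a + 1) w) = g (z (2 * a + 1) w')
      rw [← same_g h hw ha, ← same_g h hw' ha]
      exact Sum.inl_injective e
    · intro w w' hw hw' e
      show alt g bk (2 * a) (z (2 * a) w) = alt g bk (2 * a) (z (2 * a) w')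
      rw [alt_even (g := g) (bk := bk) (show 2 * a % 2 = 0 by omega),
        alt_even (g := g) (bk := bk) (show 2 * a % 2 = 0 by omega), same_g h hw ha,
        same_g h hw' ha]
      exact congrArg Sum.inl e
  unfold CI at h3
  rw [mi_eq hq, h3, sub_self]

/-- The time is almost independent of the future given the past and the line block. -/
theorem leg_future {θ : ℝ} (hI : WI p g bk β V tm θ) (hθ : 0 ≤ θ)
    (h : MC p (alt g bk) (2 * N - 1) q z) {a r : ℕ} (hr : 2 * a + 1 + r ≤ 2 * N - 1) :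
    mi q (fun w => tm (z (2 * a + 1) w)) (Fu V tm (2 * a + 1) r z)
      (fun w => (Pa (2 * a) z w, g (z (2 * a + 1) w))) ≤ 2 * N * θ := by
  have hq := h.isLaw.nonneg
  have h3 : mi q (Pa (2 * a + 1) z) (Fu V tm (2 * a + 1) r z) (fun w => β (z 0 w)) ≤ r * θ :=
    fwd_mi h β (fun i _ => hI.alt_β i) (dat V tm) (fun i _ => hI.dat_le i) (2 * a + 1) r hr
  have h4 := mi_comm hq (Pa (2 * a + 1) z) (Fu V tm (2 * a + 1) r z) (fun w => β (z 0 w))
  have h5 := mi_mono hq (Fu V tm (2 * a + 1) r z) (Pa (2 * a + 1) z)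
    (fun w => ((Pa (2 * a) z w, g (z (2 * a + 1) w)), tm (z (2 * a + 1) w)))
    (fun w => β (z 0 w)) (by
      intro w w' _ _ e
      have e0 := (Prod.ext_iff.mp e).1
      have e2 : z (2 * a + 1) w = z (2 * a + 1) w' := Pa_eq e0 le_rfl
      have e3 : Pa (2 * a) z w = Pa (2 * a) z w' := funext fun k => Pa_eq e0 (by omega)
      show ((Pa (2 * a) z w, g (z (2 * a + 1) w)), tm (z (2 * a + 1) w)) =
        ((Pa (2 * a) z w', g (z (2 * a + 1) w')), tm (z (2 * a + 1) w'))
      rw [e2, e3])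
  have h6 := mi_chain hq (Fu V tm (2 * a + 1) r z)
    (fun w => (Pa (2 * a) z w, g (z (2 * a + 1) w))) (fun w => tm (z (2 * a + 1) w))
    (fun w => β (z 0 w))
  have h7 := mi_nonneg hq (Fu V tm (2 * a + 1) r z)
    (fun w => (Pa (2 * a) z w, g (z (2 * a + 1) w))) (fun w => β (z 0 w))
  have h8 : mi q (Fu V tm (2 * a + 1) r z) (fun w => tm (z (2 * a + 1) w))
      (fun w => ((Pa (2 * a) z w, g (z (2 * a + 1) w)), β (z 0 w))) =
      mi q (Fu V tm (2 * a + 1) r z) (fun w => tm (z (2 * a + 1) w))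
      (fun w => (Pa (2 * a) z w, g (z (2 * a + 1) w))) :=
    mi_congr hq _ _ (fun _ _ _ _ e => (Prod.ext_iff.mp e).1) (fun w w' _ _ e => by
      refine Prod.ext e ?_
      have e1 : z 0 w = z 0 w' := Pa_eq (Prod.ext_iff.mp e).1 (by omega)
      show β (z 0 w) = β (z 0 w')
      rw [e1])
  have h9 := mi_comm hq (Fu V tm (2 * a + 1) r z) (fun w => tm (z (2 * a + 1) w))
    (fun w => (Pa (2 * a) z w, g (z (2 * a + 1) w)))
  have h10 : (r : ℝ) * θ ≤ 2 * N * θ := by
    refine mul_le_mul_of_nonneg_right ?_ hθ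
    have : r ≤ 2 * N := by omega
    exact_mod_cast this
  linarith

/-- **The time of a leg is almost independent of the data, given the line block.** -/
theorem leg_mi {θ : ℝ} (hI : WI p g bk β V tm θ) (hθ : 0 ≤ θ)
    (h : MC p (alt g bk) (2 * N - 1) q z) {a : ℕ} (ha : a < N) (m : ℕ) :
    mi q (fun w => tm (z (2 * a + 1) w)) (Yv β V tm m N a z) (fun w => g (z (2 * a + 1) w)) ≤
      2 * N * θ := by
  have hq := h.isLaw.nonneg
  have h1 := leg_past (tm := tm) h ha
  have h2 := leg_future hI hθ h (a := a) (r := 2 * N - 1 - (2 * a + 1)) (by omega)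
  have h3 := mi_chain hq (fun w => tm (z (2 * a + 1) w)) (Pa (2 * a) z)
    (Fu V tm (2 * a + 1) (2 * N - 1 - (2 * a + 1)) z) (fun w => g (z (2 * a + 1) w))
  have h4 := mi_mono hq (fun w => tm (z (2 * a + 1) w))
    (fun w => (Pa (2 * a) z w, Fu V tm (2 * a + 1) (2 * N - 1 - (2 * a + 1)) z w))
    (Yv β V tm m N a z) (fun w => g (z (2 * a + 1) w)) (by
    intro w w' hw hw' e
    have e1 := (Prod.ext_iff.mp (Prod.ext_iff.mp e).1).1
    have e2 := (Prod.ext_iff.mp (Prod.ext_iff.mp e).1).2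
    refine Prod.ext (funext fun j => ?_) (Prod.ext (funext fun j => ?_) (Prod.ext ?_ ?_))
    · show V (z (2 * j) w) = V (z (2 * j) w')
      by_cases hj : 2 * (j : ℕ) ≤ 2 * a
      · rw [Pa_eq e1 hj]
      · have hjN := j.2
        have e3 := Fu_eq e2 (k := 2 * j - (2 * a + 1 + 1)) (by omega)
        rw [show 2 * a + 1 + 1 + (2 * (j : ℕ) - (2 * a + 1 + 1)) = 2 * j by omega,
          dat_even (show 2 * (j : ℕ) % 2 = 0 by omega),
          dat_even (show 2 * (j : ℕ) % 2 = 0 by omega)] at e3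
        exact Sum.inl_injective e3
    · show (if (j : ℕ) < a then len tm m N z w j else 0) =
        (if (j : ℕ) < a then len tm m N z w' j else 0)
      split_ifs with hj
      · unfold len
        rw [Pa_eq e1 (show 2 * (j : ℕ) + 1 ≤ 2 * a by omega),
          Pa_eq e1 (show 2 * (j : ℕ) ≤ 2 * a by omega)]
      · rfl
    · show tm (z (2 * a) w) = tm (z (2 * a) w')
      rw [Pa_eq e1 le_rfl]
    · show β (z 0 w) = β (z 0 w')
      rw [Pa_eq e1 (Nat.zero_le _)])
  linarith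

end

end Pool.LIV84
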