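import Pool.Agent.H84.LIV.RmgL
import Pool.Agent.H84.STAT.AsmC
import Pool.Agent.H87.STAT.Flw2
import Pool.Agent.H6.STAT.Flw

/-!
# Live times: the minors of a walk
-/

set_option autoImplicit false

namespace Pool.LIV84

open Finset Real
open Pool.Agent.H49.Ent Pool.Agent.H32.Dense Pool.STK Pool.KS3 Pool.OC.RS
open Pool.BFL (Pb P2 MC alt Pl CB)
open Pool.KAF (Pr)
open Pool.LIV
open Pool.STAT
open Pool.STAT84

/-- The independence of the data from the structure of the core. -/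
theorem wi_of {c : ℕ} {Ω G B 𝔅 𝒱 : Type} [Fintype Ω] {d : Fin c → ℕ} {i₀ : Fin c}
    {j D U m : ℕ} {C₀ θ η : ℝ} {p : Ω → ℝ} {g : Ω → G} {bk : Ω → B} {β : Ω → 𝔅} {V : Ω → 𝒱}
    {tm : Ω → ℤ} {pT : Ω → Fin c → ℝ} {pN : Ω → ℝ} {ΘT : B → (Fin c → ℝ) → Fin c → ℝ}
    {FN : B → (Fin c → ℝ) → ℝ} {ξT : 𝒱 → 𝔅 → Fin c → Pl c} {ξN : 𝒱 → 𝔅 → Pl c}
    (h : LC d i₀ j D U m C₀ θ η p g bk β V tm pT pN ΘT FN ξT ξN) : WI p g bk β V tm θ :=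
  ⟨h.isLaw, h.bk_β, h.g_β, h.g_V, h.bk_tm, h.timeInd, h.indep⟩

/-- **The minors of a walk with live times**: if they are not small as polynomials then some of
them is not small at the lengths of the legs. -/
theorem minL (c j N : ℕ) (d : Fin c → ℕ) (τ' η : ℝ) (hN : 1 ≤ N) (hτ' : 0 < τ') (hη : 0 < η) :
    ∃ κ ρ η₀ : ℝ, 0 < κ ∧ 0 < ρ ∧ ρ ≤ 1 ∧ 0 < η₀ ∧ η₀ = η / (8 * (N : ℝ) ^ (c + 2)) ∧
      ∀ (k : ℕ) (a : ℝ), 1 ≤ k → 0 < a →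
      ∃ τ : ℝ, 0 < τ ∧ ∃ U₀ : ℕ, ∀ τ₁ : ℝ, τ₁ ≤ τ → ∀ U m : ℕ, U₀ ≤ U →
      ∀ (i₀ : Fin c) (D : ℕ) (C₀ : ℝ) (Ω G B 𝔅 𝒱 : Type) [Fintype Ω] (p : Ω → ℝ) (g : Ω → G)
        (bk : Ω → B) (β : Ω → 𝔅) (V : Ω → 𝒱) (tm : Ω → ℤ) (pT : Ω → Fin c → ℝ) (pN : Ω → ℝ)
        (ΘT : B → (Fin c → ℝ) → Fin c → ℝ) (FN : B → (Fin c → ℝ) → ℝ)
        (ξT : 𝒱 → 𝔅 → Fin c → Pl c) (ξN : 𝒱 → 𝔅 → Pl c) (Dd : ℕ → Set Ω),
        LC d i₀ j D U m C₀ (τ₁ * U) τ₁ p g bk β V tm pT pN ΘT FN ξT ξN →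
        (∀ i ω, 0 < p ω → ω ∉ Dd i → dead p g tm m k i ω ≤ 1 - a) →
        ∑ i ∈ range ⌊ρ * U⌋₊, Pr p (Dd i) ≤ η₀ * ⌊ρ * U⌋₊ →
        ∀ (W : Type) [Fintype W] (q : W → ℝ) (z : ℕ → W → Ω), MC p (alt g bk) (2 * N - 1) q z →
        Pb q (fun w => ¬ Flat d j (lgT β V ξT N z w) (lgN β V ξN N z w) (Real.exp (-(κ * U))) ∧
          ∀ e : Fin (c + 1) → Fin N,
            |MvPolynomial.eval (len tm m N z w) (minA d j (lgT β V ξT N z w)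
              (lgN β V ξN N z w) e)| < Real.exp (-(τ' * U))) ≤ η := by
  classical
  have hN0 : (0 : ℝ) < N := by exact_mod_cast hN
  by_cases hdj : (∀ i, 1 ≤ d i) ∧ 1 ≤ j
  swap
  · refine ⟨1, 1, _, one_pos, one_pos, le_rfl, by positivity, rfl, ?_⟩
    intro k a _ _
    refine ⟨1, one_pos, 0, ?_⟩
    intro τ₁ _ U m _ i₀ D C₀ Ω G B 𝔅 𝒱 _ p g bk β V tm pT pN ΘT FN ξT ξN Dd hW
    exact absurd ⟨hW.d_pos, hW.j_pos⟩ hdj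
  obtain ⟨hd, hj⟩ := hdj
  obtain ⟨D', K₁, K₂, hK₁, hK⟩ := minA_bound flw1_thm flw2_thm c j N d hd hj
  have hη' : 0 < η / ((N : ℝ) ^ (c + 1)) := by positivity
  obtain ⟨κ, ρ, hκ, hρ0, hρ1, hR⟩ := rmgL N D' τ' (η / ((N : ℝ) ^ (c + 1))) hN hτ' hη'
  refine ⟨κ, ρ, _, hκ, hρ0, hρ1, by positivity, rfl, ?_⟩
  intro k a hk ha
  obtain ⟨τ, hτ, U₀, hU₀⟩ := hR k a hk ha
  refine ⟨τ, hτ, U₀, ?_⟩
  intro τ₁ hτ₁ U m hU i₀ D C₀ Ω G B 𝔅 𝒱 _ p g bk β V tm pT pN ΘT FN ξT ξN Dd hW hD hs W _ q z hMC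
  have hU0 : (0 : ℝ) ≤ U := Nat.cast_nonneg _
  have hp0 := hW.isLaw.nonneg
  have hq0 := hMC.isLaw.nonneg
  have hI : WI p g bk β V tm (τ * U) := by
    have h1 := wi_of hW
    have h2 : τ₁ * U ≤ τ * U := mul_le_mul_of_nonneg_right hτ₁ hU0
    exact ⟨h1.isLaw, h1.bk_β, h1.g_β, h1.g_V, h1.bk_tm, h1.timeInd.trans h2, h1.indep.trans h2⟩
  have hUm : U ≤ m := by
    have := hW.m_ge
    omega
  have hs' : ∑ i ∈ range ⌊ρ * U⌋₊, Pr p (Dd i) ≤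
      η / ((N : ℝ) ^ (c + 1)) / (8 * N) * ⌊ρ * U⌋₊ := by
    refine hs.trans (le_of_eq ?_)
    congr 1
    rw [div_div]
    congr 1
    ring
  -- the minors, as functions of the data of the legs
  set P : (Fin (c + 1) → Fin N) → (Fin N → 𝒱) → 𝔅 → Pl N := fun e v b =>
    minA d j (fun a => ξT (v a) b) (fun a => ξN (v a) b) e with hP
  have hdeg : ∀ e v b, (P e v b).totalDegree ≤ D' := by
    intro e v b
    exact (hK (Real.exp (max (τ₁ * U) 0)) (Real.one_le_exp (le_max_right _ _))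
      (fun a => ξT (v a) b) (fun a => ξN (v a) b) (fun a => hW.ξT_vf _ _)
      (fun a => hW.ξN_hom _ _)
      (fun a i => CB.mono84 (hW.ξT_le _ _ i) (Real.exp_le_exp.2 (le_max_left _ _)))
      (fun a => CB.mono84 (hW.ξN_le _ _) (Real.exp_le_exp.2 (le_max_left _ _))) e).1
  have hβ : ∀ w, 0 < q w → ∀ i ≤ 2 * N - 1, β (z i w) = β (z 0 w) := fun w hw i hi =>
    chain_const hMC β (fun i _ => hI.alt_β i) w hw i hi
  have hleg : ∀ w, 0 < q w → ∀ e : Fin (c + 1) → Fin N,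
      minA d j (lgT β V ξT N z w) (lgN β V ξN N z w) e =
        P e (fun j => V (z (2 * j) w)) (β (z 0 w)) := by
    intro w hw e
    have h6 : lgT β V ξT N z w = fun a : Fin N => ξT (V (z (2 * a) w)) (β (z 0 w)) := by
      funext a
      unfold lgT
      have := a.2
      rw [hβ w hw (2 * a) (by omega)]
    have h7 : lgN β V ξN N z w = fun a : Fin N => ξN (V (z (2 * a) w)) (β (z 0 w)) := by
      funext a
      unfold lgN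
      have := a.2
      rw [hβ w hw (2 * a) (by omega)]
    rw [h6, h7]
  refine (Pb_mono84 hq0 (B := fun w => ∃ e : Fin (c + 1) → Fin N,
      ¬ CB (P e (fun j => V (z (2 * j) w)) (β (z 0 w))) (Real.exp (-(κ * U))) ∧
      |MvPolynomial.eval (len tm m N z w) (P e (fun j => V (z (2 * j) w)) (β (z 0 w)))| <
        Real.exp (-(τ' * U))) ?_).trans ?_
  · intro w hw hA
    have hfl := hA.1
    unfold Flat at hfl
    push Not at hfl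
    obtain ⟨e, he⟩ := hfl
    refine ⟨e, ?_, ?_⟩
    · rw [← hleg w hw e]; exact he
    · rw [← hleg w hw e]; exact hA.2 e
  · refine ((Pb_ex84 hq0 _).trans (sum_le_sum fun e _ =>
      hU₀ U m hU hUm Ω G B 𝔅 𝒱 W p g bk β V tm q z Dd hI hW.tm_g hMC hD hs' (P e) (hdeg e))).trans
      (le_of_eq ?_)
    rw [sum_const, card_univ, nsmul_eq_mul, Fintype.card_fun, Fintype.card_fin, Fintype.card_fin]
    push_cast
    field_simp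

/-- **(C) SUBMERSION, live times.** -/
theorem bigL (c j N : ℕ) (d : Fin c → ℕ) (τ' η : ℝ) (hN : 1 ≤ N) (hτ' : 0 < τ') (hη : 0 < η) :
    ∃ κ ρ η₀ : ℝ, 0 < κ ∧ 0 < ρ ∧ ρ ≤ 1 ∧ 0 < η₀ ∧ η₀ = η / (16 * (N : ℝ) ^ (c + 2)) ∧
      ∀ (k : ℕ) (a : ℝ), 1 ≤ k → 0 < a →
      ∃ τ : ℝ, 0 < τ ∧ ∃ U₀ : ℕ, ∀ τ₁ : ℝ, τ₁ ≤ τ → ∀ U m : ℕ, U₀ ≤ U →
      ∀ (i₀ : Fin c) (D : ℕ) (C₀ : ℝ) (Ω G B 𝔅 𝒱 : Type) [Fintype Ω] (p : Ω → ℝ) (g : Ω → G)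
        (bk : Ω → B) (β : Ω → 𝔅) (V : Ω → 𝒱) (tm : Ω → ℤ) (pT : Ω → Fin c → ℝ) (pN : Ω → ℝ)
        (ΘT : B → (Fin c → ℝ) → Fin c → ℝ) (FN : B → (Fin c → ℝ) → ℝ)
        (ξT : 𝒱 → 𝔅 → Fin c → Pl c) (ξN : 𝒱 → 𝔅 → Pl c) (Dd : ℕ → Set Ω),
        LC d i₀ j D U m C₀ (τ₁ * U) τ₁ p g bk β V tm pT pN ΘT FN ξT ξN →
        (∀ i ω, 0 < p ω → ω ∉ Dd i → dead p g tm m k i ω ≤ 1 - a) →
        ∑ i ∈ range ⌊ρ * U⌋₊, Pr p (Dd i) ≤ η₀ * ⌊ρ * U⌋₊ →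
        ¬ Flt d j p g bk β V ξT ξN N (Real.exp (-(κ * U))) (η / 2) →
        ∀ (W : Type) [Fintype W] (q : W → ℝ) (z : ℕ → W → Ω), MC p (alt g bk) (2 * N - 1) q z →
        Pb q (fun w => ¬ ∃ e : Fin (c + 1) → Fin N, Real.exp (-(τ' * U)) ≤
          |MvPolynomial.eval (len tm m N z w) (minA d j (lgT β V ξT N z w)
            (lgN β V ξN N z w) e)|) ≤ η := by
  obtain ⟨κ, ρ, η₀, hκ, hρ0, hρ1, hη₀, he, h⟩ := minL c j N d τ' (η / 2) hN hτ' (half_pos hη)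
  refine ⟨κ, ρ, η₀, hκ, hρ0, hρ1, hη₀, by rw [he, div_div]; congr 1; ring, ?_⟩
  intro k a hk ha
  obtain ⟨τ, hτ, U₀, hU₀⟩ := h k a hk ha
  refine ⟨τ, hτ, U₀, ?_⟩
  intro τ₁ hτ₁ U m hU i₀ D C₀ Ω G B 𝔅 𝒱 _ p g bk β V tm pT pN ΘT FN ξT ξN Dd hW hD hs hF W _ q z
    hMC
  have hq0 := hMC.isLaw.nonneg
  have h1 := hU₀ τ₁ hτ₁ U m hU i₀ D C₀ Ω G B 𝔅 𝒱 p g bk β V tm pT pN ΘT FN ξT ξN Dd hW hD hs W q z
    hMC
  have hflat : Pb q (fun w => Flat d j (lgT β V ξT N z w) (lgN β V ξN N z w)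
      (Real.exp (-(κ * U)))) ≤ η / 2 := by
    by_contra h
    push Not at h
    exact hF ⟨W, inferInstance, q, z, hMC, h.le⟩
  refine (Pb_mono84 hq0 (B := fun w => Flat d j (lgT β V ξT N z w) (lgN β V ξN N z w)
      (Real.exp (-(κ * U))) ∨ (¬ Flat d j (lgT β V ξT N z w) (lgN β V ξN N z w)
        (Real.exp (-(κ * U))) ∧ ∀ e : Fin (c + 1) → Fin N,
            |MvPolynomial.eval (len tm m N z w) (minA d j (lgT β V ξT N z w)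
              (lgN β V ξN N z w) e)| < Real.exp (-(τ' * U)))) ?_).trans ?_
  · intro w _ hA
    push Not at hA
    by_cases hfl : Flat d j (lgT β V ξT N z w) (lgN β V ξN N z w) (Real.exp (-(κ * U)))
    · exact Or.inl hfl
    · exact Or.inr ⟨hfl, hA⟩
  · refine (Pb_or84 hq0 _ _).trans ?_
    linarith only [h1, hflat]

end Pool.LIV84
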