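import Pool.Agent.H84.LIV.Ev
import Pool.Agent.H89.STAT.Fibw

/-!
# Live times: a polynomial which is not small, at the times of a walk
-/

set_option autoImplicit false

namespace Pool.LIV84

open Finset Real
open Pool.Agent.H49.Ent Pool.Agent.H32.Dense Pool.STK Pool.KS3 Pool.OC.RS
open Pool.BFL (Pb P2 MC alt Pl CB)
open Pool.KAF (Pr)
open Pool.LIV
open Pool.STAT (len)
open Pool.STAT84

section

variable {Ω G B W 𝔅 𝒱 : Type} [Fintype Ω] [Fintype W] {p : Ω → ℝ} {g : Ω → G} {bk : Ω → B}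
  {β : Ω → 𝔅} {V : Ω → 𝒱} {tm : Ω → ℤ} {N : ℕ} {q : W → ℝ} {z : ℕ → W → Ω}

/-- Most samples have small windows. -/
theorem bad_le (hp : ∀ ω, 0 ≤ p ω) {m k r : ℕ} (hr : r ≤ m) (hk : 1 ≤ k) (hkr : k ≤ r) {a η₀ : ℝ}
    (ha : 0 ≤ a) (Dd : ℕ → Set Ω)
    (hD : ∀ i ω, 0 < p ω → ω ∉ Dd i → dead p g tm m k i ω ≤ 1 - a)
    (hs : ∑ i ∈ range r, Pr p (Dd i) ≤ η₀ * r) :
    Pb p (fun ω => ¬ ms p g tm m r ω ≤
      Real.exp (-(a / k * ((r : ℝ) / 2 - k))) * law p g (g ω)) ≤ 2 * η₀ := by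
  classical
  have hr0 : (0 : ℝ) < r := by
    have : 1 ≤ r := hk.trans hkr
    exact_mod_cast this
  have hk0 : (0 : ℝ) < k := by exact_mod_cast hk
  have h1 : ∀ ω, (if ¬ ms p g tm m r ω ≤ Real.exp (-(a / k * ((r : ℝ) / 2 - k))) * law p g (g ω)
      then p ω else 0) ≤ 2 / r * ∑ i ∈ range r, (if ω ∈ Dd i then p ω else 0) := by
    intro ω
    have h0 : 0 ≤ 2 / r * ∑ i ∈ range r, (if ω ∈ Dd i then p ω else 0) :=
      mul_nonneg (by positivity) (Finset.sum_nonneg fun i _ => by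
        split_ifs; exacts [hp ω, le_rfl])
    split_ifs with hc
    · exact h0
    · by_cases hω : p ω = 0
      · rw [hω]
        simp
      have hω : 0 < p ω := lt_of_le_of_ne (hp ω) (Ne.symm hω)
      have h2 := ms_small (g := g) (tm := tm) hp hr hk hkr (a := a) hω
      set n := ((range (r - k)).filter fun i => dead p g tm m k i ω ≤ 1 - a).card with hn
      set b := ((range r).filter fun i => ω ∈ Dd i).card with hb
      have h3 : ∑ i ∈ range r, (if ω ∈ Dd i then p ω else 0) = b * p ω := by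
        rw [← Finset.sum_filter, Finset.sum_const, nsmul_eq_mul]
      have h4 : r - k ≤ n + b := by
        have h5 : range (r - k) ⊆ ((range (r - k)).filter fun i => dead p g tm m k i ω ≤ 1 - a) ∪
            ((range r).filter fun i => ω ∈ Dd i) := by
          intro i hi
          rw [Finset.mem_union, Finset.mem_filter, Finset.mem_filter]
          by_cases h6 : ω ∈ Dd i
          · right
            refine ⟨?_, h6⟩
            rw [mem_range] at hi ⊢
            omega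
          · left
            exact ⟨hi, hD i ω hω h6⟩
        have h7 := (Finset.card_le_card h5).trans (Finset.card_union_le _ _)
        rwa [card_range] at h7
      have h5 : (r : ℝ) - k ≤ n + b := by
        have h6 : (((r - k : ℕ)) : ℝ) ≤ n + b := by exact_mod_cast h4
        rwa [Nat.cast_sub hkr] at h6
      have h6 : (r : ℝ) / 2 < b := by
        by_contra hcon
        push Not at hcon
        apply hc
        refine h2.trans (mul_le_mul_of_nonneg_right (Real.exp_le_exp.2 ?_) (law_nonneg hp _ _))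
        have h7 : a / k * ((r : ℝ) / 2 - k) ≤ a / k * n :=
          mul_le_mul_of_nonneg_left (by linarith) (by positivity)
        linarith
      rw [h3]
      have h7 : 1 ≤ 2 / (r : ℝ) * b := by
        rw [div_mul_eq_mul_div, le_div_iff₀ hr0]
        linarith
      calc p ω = 1 * p ω := (one_mul _).symm
        _ ≤ 2 / (r : ℝ) * b * p ω := mul_le_mul_of_nonneg_right h7 hω.le
        _ = 2 / (r : ℝ) * (b * p ω) := by ring
  have h2 : Pb p (fun ω => ¬ ms p g tm m r ω ≤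
      Real.exp (-(a / k * ((r : ℝ) / 2 - k))) * law p g (g ω)) ≤
      ∑ ω, 2 / r * ∑ i ∈ range r, (if ω ∈ Dd i then p ω else 0) := by
    unfold Pb
    refine Finset.sum_le_sum fun ω _ => ?_
    refine le_trans (le_of_eq ?_) (h1 ω)
    congr
  refine h2.trans ?_
  rw [← Finset.mul_sum, Finset.sum_comm]
  have h3 : ∑ i ∈ range r, ∑ ω, (if ω ∈ Dd i then p ω else 0) = ∑ i ∈ range r, Pr p (Dd i) :=
    Finset.sum_congr rfl fun i _ => by
      rw [Pr_sum84]
  rw [h3]
  calc 2 / (r : ℝ) * ∑ i ∈ range r, Pr p (Dd i) ≤ 2 / (r : ℝ) * (η₀ * r) :=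
        mul_le_mul_of_nonneg_left hs (by positivity)
    _ = 2 * η₀ := by field_simp

/-- The sum over the legs. -/
theorem legs_sum {θ : ℝ} (hI : WI p g bk β V tm θ) (hθ : 0 ≤ θ) {m : ℕ}
    (htm : ∀ ω ω', g ω = g ω' → |tm ω' - tm ω| ≤ 2 ^ m)
    (h : MC p (alt g bk) (2 * N - 1) q z) (hN : 1 ≤ N) {D r : ℕ} (hr : r ≤ m)
    (P : (Fin N → 𝒱) → 𝔅 → Pl N) (hP : ∀ v b, (P v b).totalDegree ≤ D)
    (x : (Fin N → 𝒱) → 𝔅 → Fin N → ℝ) (hx : ∀ v b i, |x v b i| ≤ 1) (A : ℕ → ℝ) {ε L η₁ : ℝ}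
    (hε : 0 ≤ ε) (hL0 : 0 < L) (hL : (2 * D + 1) * ε ≤ Real.exp (-L))
    (hA : ∀ i, ((D : ℝ) + 1) * (2 * 2 ^ r) ^ D * A (i + 1) < A i)
    (hbad : Pb p (fun ω => ¬ ms p g tm m r ω ≤ ε * law p g (g ω)) ≤ η₁) :
    Pb q (fun w => A 0 ≤ |MvPolynomial.eval (x (fun j => V (z (2 * j) w)) (β (z 0 w)))
        (P (fun j => V (z (2 * j) w)) (β (z 0 w)))| ∧
      |MvPolynomial.eval (len tm m N z w) (P (fun j => V (z (2 * j) w)) (β (z 0 w)))| < A N) ≤
      N * ((2 * N * θ + Real.log 2) / L + η₁) := by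
  classical
  have hq := h.isLaw
  have hq0 := hq.nonneg
  set v : ℕ → W → ℝ := fun a w => |MvPolynomial.eval (mx a (len tm m N z w)
    (x (fun j => V (z (2 * j) w)) (β (z 0 w)))) (P (fun j => V (z (2 * j) w)) (β (z 0 w)))|
    with hv
  set gd : ℕ → W → Prop := fun a w =>
    ms p g tm m r (z (2 * a + 1) w) ≤ ε * law p g (g (z (2 * a + 1) w)) with hgd
  have e0 : ∀ w, v 0 w = |MvPolynomial.eval (x (fun j => V (z (2 * j) w)) (β (z 0 w)))
        (P (fun j => V (z (2 * j) w)) (β (z 0 w)))| := by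
    intro w
    simp only [hv]
    congr 3
  have eN : ∀ w, v N w = |MvPolynomial.eval (len tm m N z w)
      (P (fun j => V (z (2 * j) w)) (β (z 0 w)))| := by
    intro w
    simp only [hv]
    congr 3
    funext j
    unfold mx
    rw [if_pos j.2]
  have h1 : ∀ w, (A 0 ≤ v 0 w ∧ v N w < A N) → ∃ a : Fin N,
      (A a ≤ v a w ∧ v (a + 1) w ≤ A (a + 1) ∧ gd a w) ∨ ¬ gd a w := by
    intro w hw
    by_contra hcon
    push Not at hcon
    have h2 : ∀ a ≤ N, A a ≤ v a w := by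
      intro a
      induction a with
      | zero => exact fun _ => hw.1
      | succ a ih =>
        intro ha
        obtain ⟨c1, c2⟩ := hcon ⟨a, by omega⟩
        by_contra h3
        push Not at h3
        exact c1 (ih (by omega)) h3.le c2
    exact absurd (h2 N le_rfl) (not_le.2 hw.2)
  refine (Pb_mono84 hq0 (B := fun w => ∃ a : Fin N,
      (A a ≤ v a w ∧ v (a + 1) w ≤ A (a + 1) ∧ gd a w) ∨ ¬ gd a w) ?_).trans ?_
  · intro w _ hc
    refine h1 w ⟨?_, ?_⟩
    · rw [e0]; exact hc.1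
    · rw [eN]; exact hc.2
  refine (Pb_ex84 hq0 _).trans ?_
  have h2 : ∀ a : Fin N, Pb q (fun w => (A a ≤ v a w ∧ v (a + 1) w ≤ A (a + 1) ∧ gd a w) ∨
      ¬ gd a w) ≤ (2 * N * θ + Real.log 2) / L + η₁ := by
    intro a
    refine (Pb_or84 hq0 _ _).trans (add_le_add ?_ ?_)
    · rw [le_div_iff₀ hL0, mul_comm]
      exact leg_event hI hθ htm h a.2 hr P hP x hx hε hL (hA a)
    · have := marg_pb (h.marg (2 * a + 1) (by have := a.2; omega))
        (fun ω => ¬ ms p g tm m r ω ≤ ε * law p g (g ω))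
      rw [← this] at hbad
      exact hbad
  refine (Finset.sum_le_sum fun a _ => h2 a).trans ?_
  rw [Finset.sum_const, card_univ, Fintype.card_fin, nsmul_eq_mul]

end

/-- **Row RmgL.** A polynomial (a function of the data of the legs) which is not small is not small
at the times of the walk. -/
theorem rmgL (N D : ℕ) (τ' η : ℝ) (hN : 1 ≤ N) (hτ' : 0 < τ') (hη : 0 < η) :
    ∃ κ ρ : ℝ, 0 < κ ∧ 0 < ρ ∧ ρ ≤ 1 ∧ ∀ (k : ℕ) (a : ℝ), 1 ≤ k → 0 < a →
      ∃ τ : ℝ, 0 < τ ∧ ∃ U₀ : ℕ, ∀ U m : ℕ, U₀ ≤ U → U ≤ m →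
      ∀ (Ω G B 𝔅 𝒱 W : Type) [Fintype Ω] [Fintype W] (p : Ω → ℝ) (g : Ω → G) (bk : Ω → B)
        (β : Ω → 𝔅) (V : Ω → 𝒱) (tm : Ω → ℤ) (q : W → ℝ) (z : ℕ → W → Ω) (Dd : ℕ → Set Ω),
        WI p g bk β V tm (τ * U) → (∀ ω ω', g ω = g ω' → |tm ω' - tm ω| ≤ 2 ^ m) →
        MC p (alt g bk) (2 * N - 1) q z →
        (∀ i ω, 0 < p ω → ω ∉ Dd i → dead p g tm m k i ω ≤ 1 - a) →
        ∑ i ∈ range ⌊ρ * U⌋₊, Pr p (Dd i) ≤ η / (8 * N) * ⌊ρ * U⌋₊ →
        ∀ P : (Fin N → 𝒱) → 𝔅 → Pl N, (∀ v b, (P v b).totalDegree ≤ D) →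
        Pb q (fun w => ¬ CB (P (fun j => V (z (2 * j) w)) (β (z 0 w))) (Real.exp (-(κ * U))) ∧
          |MvPolynomial.eval (len tm m N z w) (P (fun j => V (z (2 * j) w)) (β (z 0 w)))| <
            Real.exp (-(τ' * U))) ≤ η := by
  classical
  obtain ⟨cb, hcb⟩ := Pool.POLY.big_value N D
  have hN0 : (0 : ℝ) < N := by exact_mod_cast hN
  have hl2 : 0 < Real.log 2 := Real.log_pos (by norm_num)
  have hl2' : Real.log 2 ≤ 1 := by linarith only [Real.log_two_lt_d9]
  set ρ : ℝ := min 1 (τ' / (4 * (D * N + 1))) with hρ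
  have hDN : (0 : ℝ) < D * N + 1 := by positivity
  have hρ0 : 0 < ρ := lt_min one_pos (by positivity)
  have hρ1 : ρ ≤ 1 := min_le_left _ _
  have hρ2 : ρ * (D * N) ≤ τ' / 4 := by
    have h1 : ρ ≤ τ' / (4 * (D * N + 1)) := min_le_right _ _
    rw [le_div_iff₀ (by positivity)] at h1
    nlinarith only [h1, hρ0]
  refine ⟨τ' / 4, ρ, by positivity, hρ0, hρ1, ?_⟩
  intro k a hk ha
  have hk0 : (0 : ℝ) < k := by exact_mod_cast hk
  -- the constants
  set c₁ : ℝ := (cb + 1) * Real.log 2 + N * (Real.log (2 * (D + 1)) + D * Real.log 2) with hc₁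
  set τ : ℝ := η * a * ρ / (32 * k * N ^ 2) with hτ
  have hτ0 : 0 < τ := by positivity
  obtain ⟨U₁, hU₁⟩ := exists_nat_ge (4 * c₁ / τ')
  obtain ⟨U₂, hU₂⟩ := exists_nat_ge ((k + 1) / ρ)
  obtain ⟨U₃, hU₃⟩ := exists_nat_ge ((a / k * (1 / 2 + k) + Real.log (2 * D + 1)) *
    (4 * k) / (a * ρ))
  obtain ⟨U₄, hU₄⟩ := exists_nat_ge (N * Real.log 2 * (16 * k) / (η * a * ρ))
  refine ⟨τ, hτ0, max (max U₁ U₂) (max (max U₃ U₄) 1), ?_⟩
  intro U m hU hUm Ω G B 𝔅 𝒱 W _ _ p g bk β V tm q z Dd hI htm h hD hs P hP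
  have hq0 := h.isLaw.nonneg
  have hp0 := hI.isLaw.nonneg
  have hUU1 : (U₁ : ℝ) ≤ U := by
    exact_mod_cast ((le_max_left _ _).trans (le_max_left _ _)).trans hU
  have hUU2 : (U₂ : ℝ) ≤ U := by
    exact_mod_cast ((le_max_right _ _).trans (le_max_left _ _)).trans hU
  have hUU3 : (U₃ : ℝ) ≤ U := by
    exact_mod_cast (((le_max_left _ _).trans (le_max_left _ _)).trans (le_max_right _ _)).trans hU
  have hUU4 : (U₄ : ℝ) ≤ U := by
    exact_mod_cast (((le_max_right _ _).trans (le_max_left _ _)).trans (le_max_right _ _)).trans hU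
  have hUU5 : (1 : ℝ) ≤ U := by
    exact_mod_cast ((le_max_right _ _).trans (le_max_right _ _)).trans hU
  have hU0 : (0 : ℝ) < U := by linarith only [hUU5]
  have g1 : c₁ ≤ τ' / 4 * U := by
    have h1 := hU₁.trans hUU1
    rw [div_le_iff₀ hτ'] at h1
    linarith only [h1]
  have g2 : (k : ℝ) + 1 ≤ ρ * U := by
    have h1 := hU₂.trans hUU2
    rw [div_le_iff₀ hρ0] at h1
    linarith only [h1]
  have g3 : a / k * (1 / 2 + k) + Real.log (2 * D + 1) ≤ a * ρ * U / (4 * k) := by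
    have h1 := hU₃.trans hUU3
    rw [div_le_iff₀ (by positivity)] at h1
    rw [le_div_iff₀ (by positivity)]
    linarith only [h1]
  have g4 : N * Real.log 2 ≤ η * a * ρ * U / (16 * k) := by
    have h1 := hU₄.trans hUU4
    rw [div_le_iff₀ (by positivity)] at h1
    rw [le_div_iff₀ (by positivity)]
    linarith only [h1]
  -- the number of digits
  set r : ℕ := ⌊ρ * U⌋₊ with hr
  have hr1 : (r : ℝ) ≤ ρ * U := Nat.floor_le (by positivity)
  have hr2 : ρ * U - 1 < r := by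
    have := Nat.lt_floor_add_one (ρ * U)
    linarith only [this]
  have hkr : k ≤ r := by
    have : (k : ℝ) ≤ r := by linarith only [hr2, g2]
    exact_mod_cast this
  have hrm : r ≤ m := by
    have h1 : (r : ℝ) ≤ U := by
      have := mul_le_mul_of_nonneg_right hρ1 hU0.le
      linarith only [this, hr1]
    have h2 : r ≤ U := by exact_mod_cast h1
    omega
  -- the constant `L`
  set ε : ℝ := Real.exp (-(a / k * ((r : ℝ) / 2 - k))) with hε
  set L : ℝ := a / k * ((r : ℝ) / 2 - k) - Real.log (2 * D + 1) with hL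
  have hD1 : (0 : ℝ) < 2 * D + 1 := by positivity
  have hLe : (2 * D + 1) * ε ≤ Real.exp (-L) := by
    have h1 : -L = Real.log (2 * D + 1) + -(a / k * ((r : ℝ) / 2 - k)) := by
      rw [hL]
      ring
    rw [h1, Real.exp_add, Real.exp_log hD1]
  have hLl : a * ρ * U / (4 * k) ≤ L := by
    have h1 : a / k * ((ρ * U - 1) / 2 - k) ≤ a / k * ((r : ℝ) / 2 - k) :=
      mul_le_mul_of_nonneg_left (by linarith only [hr2]) (by positivity)
    have h2 : a / k * ((ρ * U - 1) / 2 - k) =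
        2 * (a * ρ * U / (4 * k)) - a / k * (1 / 2 + k) := by
      field_simp
      ring
    rw [hL]
    linarith only [h1, h2, g3]
  have hLp : 0 < a * ρ * U / (4 * k) := by positivity
  have hL0 : 0 < L := lt_of_lt_of_le hLp hLl
  have hinf : N * ((2 * N * (τ * U) + Real.log 2) / L) ≤ η / 2 := by
    have h1 : N * (2 * N * (τ * U) + Real.log 2) ≤ η / 2 * (a * ρ * U / (4 * k)) := by
      have h2 : N * (2 * N * (τ * U)) = η * a * ρ * U / (16 * k) := by
        rw [hτ]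
        field_simp
        norm_num
      have h3 : η / 2 * (a * ρ * U / (4 * k)) = 2 * (η * a * ρ * U / (16 * k)) := by
        field_simp
        norm_num
      rw [mul_add, h2, h3]
      linarith only [g4]
    rw [← mul_div_assoc, div_le_iff₀ hL0]
    exact h1.trans (mul_le_mul_of_nonneg_left hLl (by positivity))
  have hbad := bad_le (g := g) (tm := tm) hp0 hrm hk hkr ha.le Dd hD hs
  -- the big point
  set n : ℕ := cb + ⌈τ' / 4 * U / Real.log 2⌉₊ with hn
  have hx : ∀ (v : Fin N → 𝒱) (b : 𝔅), ∃ x : Fin N → ℝ, (∀ i, |x i| ≤ 1) ∧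
      (¬ CB (P v b) (Real.exp (-(τ' / 4 * U))) → (1 / 2) ^ n ≤ |MvPolynomial.eval x (P v b)|) := by
    intro v b
    by_cases hCB : CB (P v b) (Real.exp (-(τ' / 4 * U)))
    · exact ⟨fun _ => 0, fun _ => by simp, fun h => absurd hCB h⟩
    · obtain ⟨x, hx1, hx2⟩ := hcb (P v b) n (Real.exp (-(τ' / 4 * U))) (hP v b) (by
        have h1 : (2 : ℝ) ^ cb * (1 / 2) ^ n = (1 / 2) ^ ⌈τ' / 4 * U / Real.log 2⌉₊ := by
          rw [hn, pow_add, ← mul_assoc, ← mul_pow]
          norm_num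
        rw [h1, ← Real.exp_log (show (0 : ℝ) < (1 / 2) ^ ⌈τ' / 4 * U / Real.log 2⌉₊ by positivity)]
        refine Real.exp_le_exp.2 ?_
        rw [Real.log_pow, one_div, Real.log_inv]
        have h2 := Nat.le_ceil (τ' / 4 * U / Real.log 2)
        rw [div_le_iff₀ hl2] at h2
        linarith only [h2]) hCB
      exact ⟨x, hx1, fun _ => hx2⟩
  choose x hx1 hx2 using hx
  -- the thresholds
  set θ₁ : ℝ := 1 / (2 * ((D : ℝ) + 1) * (2 * 2 ^ r) ^ D) with hθ₁
  have hθp : 0 < θ₁ := by positivity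
  set A : ℕ → ℝ := fun i => (1 / 2) ^ n * θ₁ ^ i with hA
  have hA1 : ∀ i, ((D : ℝ) + 1) * (2 * 2 ^ r) ^ D * A (i + 1) < A i := by
    intro i
    have h1 : ((D : ℝ) + 1) * (2 * 2 ^ r) ^ D * A (i + 1) = 1 / 2 * A i := by
      simp only [hA]
      rw [pow_succ, hθ₁]
      field_simp
    have h2 : 0 < A i := by simp only [hA]; positivity
    rw [h1]
    linarith only [h2]
  have hAN : Real.exp (-(τ' * U)) ≤ A N := by
    have h2 : 0 < A N := by simp only [hA]; positivity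
    rw [← Real.exp_log h2]
    refine Real.exp_le_exp.2 ?_
    simp only [hA]
    have hlog : Real.log (2 * ((D : ℝ) + 1) * (2 * 2 ^ r) ^ D) =
        Real.log (2 * (D + 1)) + D * (Real.log 2 + r * Real.log 2) := by
      rw [Real.log_mul (by positivity) (by positivity), Real.log_pow,
        Real.log_mul (x := 2) (y := 2 ^ r) (by norm_num) (by positivity), Real.log_pow]
    rw [Real.log_mul (by positivity) (by positivity), Real.log_pow, Real.log_pow, one_div,
      Real.log_inv, hθ₁, one_div, Real.log_inv, hlog]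
    have h3 : (n : ℝ) * Real.log 2 ≤ τ' / 4 * U + (cb + 1) * Real.log 2 := by
      have h4 := (Nat.ceil_lt_add_one (show 0 ≤ τ' / 4 * U / Real.log 2 by positivity)).le
      have h5 : (n : ℝ) ≤ τ' / 4 * U / Real.log 2 + (cb + 1) := by
        rw [hn]
        push_cast
        linarith only [h4]
      have h6 := mul_le_mul_of_nonneg_right h5 hl2.le
      rw [add_mul, div_mul_cancel₀ _ hl2.ne'] at h6
      exact h6
    have h4 : N * (D * (r * Real.log 2)) ≤ τ' / 4 * U := by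
      have h5 : (r : ℝ) * Real.log 2 ≤ ρ * U := by
        have h6 : (r : ℝ) * Real.log 2 ≤ r * 1 :=
          mul_le_mul_of_nonneg_left hl2' (Nat.cast_nonneg _)
        linarith only [h6, hr1]
      have h6 : N * (D * (r * Real.log 2)) ≤ N * (D * (ρ * U)) :=
        mul_le_mul_of_nonneg_left (mul_le_mul_of_nonneg_left h5 (Nat.cast_nonneg _)) hN0.le
      have h7 := mul_le_mul_of_nonneg_right hρ2 hU0.le
      linarith only [h6, h7]
    rw [hc₁] at g1
    linarith only [g1, h3, h4, mul_pos hτ' hU0]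
  have hfin := legs_sum hI (by positivity) htm h hN hrm P hP x hx1 A (Real.exp_pos _).le hL0 hLe
    hA1 hbad
  refine (Pb_mono84 hq0 (B := fun w => A 0 ≤ |MvPolynomial.eval
      (x (fun j => V (z (2 * j) w)) (β (z 0 w))) (P (fun j => V (z (2 * j) w)) (β (z 0 w)))| ∧
      |MvPolynomial.eval (len tm m N z w) (P (fun j => V (z (2 * j) w)) (β (z 0 w)))| < A N)
      ?_).trans (hfin.trans ?_)
  · intro w _ hc
    refine ⟨?_, lt_of_lt_of_le hc.2 hAN⟩
    have h1 := hx2 _ _ hc.1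
    simp only [hA, pow_zero, mul_one]
    exact h1
  · rw [mul_add]
    have h1 : N * (2 * (η / (8 * N))) = η / 4 := by
      field_simp
      norm_num
    rw [h1]
    linarith only [hinf, hη]

end Pool.LIV84
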